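import Mathlib

/-!
Rigidity of thick regions of the king's graph.
-/

namespace Pool.Agent.Lead.BP

def K (p q : ℤ × ℤ) : Prop := max |p.1 - q.1| |p.2 - q.2| = 1

instance (p q) : Decidable (K p q) := by unfold K; infer_instance

def emb (z : Fin 3 × Fin 3) : ℤ × ℤ := ((z.1.val : ℤ) - 1, (z.2.val : ℤ) - 1)

def Ort (u v : ℤ × ℤ) : Prop :=
  (u.2 = 0 ∧ v.1 = 0 ∧ (u.1 = 1 ∨ u.1 = -1) ∧ (v.2 = 1 ∨ v.2 = -1)) ∨
  (u.1 = 0 ∧ v.2 = 0 ∧ (u.2 = 1 ∨ u.2 = -1) ∧ (v.1 = 1 ∨ v.1 = -1))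

instance (p q) : Decidable (Ort p q) := by unfold Ort; infer_instance

set_option synthInstance.maxSize 100000 in
theorem loc0 : ∀ s : Fin 3 × Fin 3, K 0 (emb s) → ∀ e, K 0 (emb e) → K (emb s) (emb e) →
    ∀ n, K 0 (emb n) → K (emb e) (emb n) → emb n ≠ emb s → ∀ w, K 0 (emb w) → K (emb n) (emb w) →
    K (emb s) (emb w) → emb w ≠ emb e → ∀ a, K 0 (emb a) → K (emb s) (emb a) → K (emb e) (emb a) →
    emb a ≠ emb n → emb a ≠ emb w → ∀ b, K 0 (emb b) → K (emb e) (emb b) → K (emb n) (emb b) →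
    emb b ≠ emb s → emb b ≠ emb w → emb b ≠ emb a → ∀ c, K 0 (emb c) → K (emb n) (emb c) →
    K (emb w) (emb c) → emb c ≠ emb s → emb c ≠ emb e → emb c ≠ emb a → emb c ≠ emb b →
    ∀ d, K 0 (emb d) → K (emb w) (emb d) → K (emb s) (emb d) → emb d ≠ emb e → emb d ≠ emb n →
    emb d ≠ emb a → emb d ≠ emb b → emb d ≠ emb c →
    Ort (emb s) (emb e) ∧ emb n = -emb s ∧ emb w = -emb e ∧ emb a = emb s + emb e ∧
      emb b = -emb s + emb e ∧ emb c = -emb s - emb e ∧ emb d = emb s - emb e := by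
  decide +kernel

theorem K_iff {p q : ℤ × ℤ} : K p q ↔ p.1 ≤ q.1 + 1 ∧ q.1 ≤ p.1 + 1 ∧ p.2 ≤ q.2 + 1 ∧ q.2 ≤ p.2 + 1 ∧
    (p.1 ≠ q.1 ∨ p.2 ≠ q.2) := by
  simp only [K, abs_eq_max_neg]; omega

theorem ex_emb {x : ℤ × ℤ} (h : K 0 x) : ∃ z, x = emb z := by
  rw [K_iff] at h
  simp only [Prod.fst_zero, Prod.snd_zero] at h
  exact ⟨(⟨(x.1 + 1).toNat, by omega⟩, ⟨(x.2 + 1).toNat, by omega⟩),
    Prod.ext (by simp [emb]; omega) (by simp [emb]; omega)⟩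

theorem loc {f : ℤ → ℤ → ℤ × ℤ} (h : ∀ i j i' j' : ℤ, |i| ≤ 1 → |j| ≤ 1 → |i'| ≤ 1 → |j'| ≤ 1 →
    (K (i, j) (i', j') → K (f i j) (f i' j')) ∧ (f i j = f i' j' → (i, j) = (i', j'))) :
    ∃ u v, Ort u v ∧ ∀ i j : ℤ, |i| ≤ 1 → |j| ≤ 1 → f i j = f 0 0 + i • u + j • v := by
  obtain ⟨g, hg⟩ : ∃ g : ℤ → ℤ → ℤ × ℤ, ∀ i j, f i j = f 0 0 + g i j := ⟨fun i j => f i j - f 0 0, by simp⟩
  have a : ∀ i j i' j' : ℤ, |i| ≤ 1 ∧ |j| ≤ 1 ∧ |i'| ≤ 1 ∧ |j'| ≤ 1 ∧ K (i, j) (i', j') →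
      K (g i j) (g i' j') := fun i j i' j' ⟨h1, h2, h3, h4, h5⟩ => by
    have := (h i j i' j' h1 h2 h3 h4).1 h5
    rw [hg i j, hg i' j'] at this
    simpa [K] using this
  have b : ∀ i j i' j' : ℤ, |i| ≤ 1 ∧ |j| ≤ 1 ∧ |i'| ≤ 1 ∧ |j'| ≤ 1 ∧ (i, j) ≠ (i', j') →
      g i j ≠ g i' j' := fun i j i' j' ⟨h1, h2, h3, h4, h5⟩ e =>
    h5 ((h i j i' j' h1 h2 h3 h4).2 (by rw [hg i j, hg i' j', e]))
  have g0 : g 0 0 = 0 := by simpa using hg 0 0
  have c : ∀ i j : ℤ, |i| ≤ 1 ∧ |j| ≤ 1 ∧ K (0, 0) (i, j) → K 0 (g i j) := fun i j k =>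
    g0 ▸ a 0 0 i j ⟨by simp, by simp, k⟩
  choose! z hz using fun i j k => ex_emb (c i j k)
  have := loc0 (z 1 0)
  rw [← hz 1 0 (by decide)] at this
  replace this := this (c _ _ (by decide)) (z 0 1)
  rw [← hz 0 1 (by decide)] at this
  replace this := this (c _ _ (by decide)) (a _ _ _ _ (by decide)) (z (-1) 0)
  rw [← hz (-1) 0 (by decide)] at this
  replace this := this (c _ _ (by decide)) (a _ _ _ _ (by decide)) (b _ _ _ _ (by decide)) (z 0 (-1))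
  rw [← hz 0 (-1) (by decide)] at this
  replace this := this (c _ _ (by decide)) (a _ _ _ _ (by decide)) (a _ _ _ _ (by decide))
    (b _ _ _ _ (by decide)) (z 1 1)
  rw [← hz 1 1 (by decide)] at this
  replace this := this (c _ _ (by decide)) (a _ _ _ _ (by decide)) (a _ _ _ _ (by decide))
    (b _ _ _ _ (by decide)) (b _ _ _ _ (by decide)) (z (-1) 1)
  rw [← hz (-1) 1 (by decide)] at this
  replace this := this (c _ _ (by decide)) (a _ _ _ _ (by decide)) (a _ _ _ _ (by decide))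
    (b _ _ _ _ (by decide)) (b _ _ _ _ (by decide)) (b _ _ _ _ (by decide)) (z (-1) (-1))
  rw [← hz (-1) (-1) (by decide)] at this
  replace this := this (c _ _ (by decide)) (a _ _ _ _ (by decide)) (a _ _ _ _ (by decide))
    (b _ _ _ _ (by decide)) (b _ _ _ _ (by decide)) (b _ _ _ _ (by decide)) (b _ _ _ _ (by decide))
    (z 1 (-1))
  rw [← hz 1 (-1) (by decide)] at this
  obtain ⟨k0, k1, k2, k3, k4, k5, k6⟩ := this (c _ _ (by decide)) (a _ _ _ _ (by decide))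
    (a _ _ _ _ (by decide)) (b _ _ _ _ (by decide)) (b _ _ _ _ (by decide)) (b _ _ _ _ (by decide))
    (b _ _ _ _ (by decide)) (b _ _ _ _ (by decide))
  refine ⟨_, _, k0, fun i j hi hj => ?_⟩
  rw [hg i j, abs_le] at *
  obtain ⟨h1, h2⟩ := hi
  obtain ⟨h3, h4⟩ := hj
  interval_cases i <;> interval_cases j <;> simp [g0, k1, k2, k3, k4, k5, k6, add_assoc, sub_eq_add_neg]

section
variable {F : ℤ → ℤ → Prop} {ψ : ℤ → ℤ → ℤ × ℤ}
  (h : ∀ r c r' c', F r c → F r' c' → (K (r, c) (r', c') → K (ψ r c) (ψ r' c')) ∧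
    (ψ r c = ψ r' c' → (r, c) = (r', c')))

def Blk (F : ℤ → ℤ → Prop) (r c : ℤ) : Prop := ∀ i j : ℤ, |i| ≤ 1 → |j| ≤ 1 → F (r + i) (c + j)

def Fit (ψ : ℤ → ℤ → ℤ × ℤ) (o u v : ℤ × ℤ) (r c : ℤ) : Prop :=
  ∀ i j : ℤ, |i| ≤ 1 → |j| ≤ 1 → ψ (r + i) (c + j) = o + (r + i) • u + (c + j) • v

include h

theorem blk {r c} (b : Blk F r c) : ∃ o u v, Ort u v ∧ Fit ψ o u v r c := by
  obtain ⟨u, v, h1, h2⟩ := loc (f := fun i j => ψ (r + i) (c + j)) fun i j i' j' a1 a2 a3 a4 =>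
    ⟨fun k => (h _ _ _ _ (b i j a1 a2) (b i' j' a3 a4)).1 (by simpa [K] using k),
      fun k => by simpa using (h _ _ _ _ (b i j a1 a2) (b i' j' a3 a4)).2 k⟩
  refine ⟨ψ r c - r • u - c • v, u, v, h1, fun i j hi hj => ?_⟩
  have := h2 i j hi hj
  simp only [add_zero] at this
  rw [this]; module

theorem Fit.step {o u v r c r' c'} (f : Fit ψ o u v r c) (b : Blk F r' c')
    (e : (r' = r + 1 ∧ c' = c) ∨ (r' = r ∧ c' = c + 1)) : Fit ψ o u v r' c' := by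
  obtain ⟨o', u', v', -, f'⟩ := blk h b
  have : o' = o ∧ u' = u ∧ v' = v := by
    rcases e with ⟨rfl, rfl⟩ | ⟨rfl, rfl⟩
    · have a1 := (f 0 0 (by simp) (by simp)).symm.trans (by simpa using f' (-1) 0 (by simp) (by simp))
      have a2 := (f 1 0 (by simp) (by simp)).symm.trans (by simpa using f' 0 0 (by simp) (by simp))
      have a3 := (f 0 1 (by simp) (by simp)).symm.trans (by simpa using f' (-1) 1 (by simp) (by simp))
      have b1 : u' = u := by linear_combination (exp := 1) a1 - a2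
      have b2 : v' = v := by linear_combination (exp := 1) a1 - a3
      subst b1 b2
      exact ⟨by simpa using a1.symm, rfl, rfl⟩
    · have a1 := (f 0 0 (by simp) (by simp)).symm.trans (by simpa using f' 0 (-1) (by simp) (by simp))
      have a2 := (f 1 0 (by simp) (by simp)).symm.trans (by simpa using f' 1 (-1) (by simp) (by simp))
      have a3 := (f 0 1 (by simp) (by simp)).symm.trans (by simpa using f' 0 0 (by simp) (by simp))
      have b1 : u' = u := by linear_combination (exp := 1) a1 - a2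
      have b2 : v' = v := by linear_combination (exp := 1) a1 - a3
      subst b1 b2
      exact ⟨by simpa using a1.symm, rfl, rfl⟩
  obtain ⟨rfl, rfl, rfl⟩ := this
  exact f'

end

/-- the frame -/
def Fr (n m r c : ℤ) : Prop := 0 ≤ r ∧ r < n ∧ 0 ≤ c ∧ c < n ∧ (c < 3 ∨ r % 4 ≠ 3 ∨ 4 * m ≤ r)

theorem rigid {n m : ℤ} (hm : 0 ≤ m) (hn : 4 * m + 3 ≤ n) {ψ : ℤ → ℤ → ℤ × ℤ}
    (h : ∀ r c r' c', Fr n m r c → Fr n m r' c' → (K (r, c) (r', c') → K (ψ r c) (ψ r' c')) ∧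
      (ψ r c = ψ r' c' → (r, c) = (r', c'))) :
    ∃ o u v, Ort u v ∧ ∀ r c, Fr n m r c → ψ r c = o + r • u + c • v := by
  obtain ⟨o, u, v, h1, h2⟩ := blk h (r := 1) (c := 1) fun i j hi hj => by
    rw [abs_le] at hi hj; unfold Fr; omega
  have col : ∀ r, 1 ≤ r → r ≤ n - 2 → Fit ψ o u v r 1 := fun r hr =>
    Int.leInduction (motive := fun r _ => r ≤ n - 2 → Fit ψ o u v r 1) (fun _ => h2) (fun r k ih k' =>
      (ih (by omega)).step h (fun i j hi hj => by rw [abs_le] at hi hj; unfold Fr; omega)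
        (Or.inl ⟨rfl, rfl⟩)) r hr
  have row : ∀ r, 1 ≤ r → r ≤ n - 2 → (r % 4 = 1 ∨ 4 * m < r) → ∀ c, 1 ≤ c → c ≤ n - 2 →
      Fit ψ o u v r c := fun r k1 k2 k3 c hc =>
    Int.leInduction (motive := fun c _ => c ≤ n - 2 → Fit ψ o u v r c) (fun _ => col r k1 k2)
      (fun c k ih k' => (ih (by omega)).step h
        (fun i j hi hj => by rw [abs_le] at hi hj; unfold Fr; omega) (Or.inr ⟨rfl, rfl⟩)) c hc
  refine ⟨o, u, v, h1, fun r c k => ?_⟩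
  have e : ∀ r' c', Fit ψ o u v r' c' → |r - r'| ≤ 1 → |c - c'| ≤ 1 → ψ r c = o + r • u + c • v :=
    fun r' c' f k1 k2 => by simpa using f _ _ k1 k2
  unfold Fr at k
  by_cases k1 : c < 3
  · exact e _ _ (col (max 1 (min r (n - 2))) (by omega) (by omega)) (by rw [abs_le]; omega)
      (by rw [abs_le]; omega)
  by_cases k2 : 4 * m ≤ r
  · exact e _ _ (row (max (4 * m + 1) (min r (n - 2))) (by omega) (by omega) (by omega)
      (min c (n - 2)) (by omega) (by omega)) (by rw [abs_le]; omega) (by rw [abs_le]; omega)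
  · exact e _ _ (row (4 * (r / 4) + 1) (by omega) (by omega) (by omega)
      (min c (n - 2)) (by omega) (by omega)) (by rw [abs_le]; omega) (by rw [abs_le]; omega)

def Bd (n : ℤ) (z : ℤ × ℤ) : Prop := 0 ≤ z.1 ∧ z.1 < n ∧ 0 ≤ z.2 ∧ z.2 < n

theorem unfold_iso {n : ℤ} {o u v : ℤ × ℤ} (h : Ort u v) (h0 : Bd n o)
    (h1 : Bd n (o + (n - 1) • u + (n - 1) • v)) : ∃ τ : ℤ × ℤ → ℤ × ℤ,
    (∀ r c : ℤ, τ (o + r • u + c • v) = (r, c)) ∧ (∀ z, Bd n z → Bd n (τ z)) ∧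
    Function.Injective τ ∧ ∀ y z, K y z → K (τ y) (τ z) := by
  obtain ⟨o1, o2⟩ := o
  obtain ⟨u1, u2⟩ := u
  obtain ⟨v1, v2⟩ := v
  refine ⟨fun z => ((z.1 - o1) * u1 + (z.2 - o2) * u2, (z.1 - o1) * v1 + (z.2 - o2) * v2), ?_⟩
  simp only [Ort] at h
  rcases h with ⟨rfl, rfl, rfl | rfl, rfl | rfl⟩ | ⟨rfl, rfl, rfl | rfl, rfl | rfl⟩ <;>
  · simp [Bd] at h0 h1
    refine ⟨fun r c => by simp, fun z => ?_, fun y z => ?_, fun y z => ?_⟩
    · simp only [Bd]; omega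
    · simp only [Prod.ext_iff]; omega
    · simp only [K_iff]; omega

end Pool.Agent.Lead.BP
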