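import Pool.Agent.H38.NP.Defs

/-!
Boggle logic puzzles.
-/

namespace Pool.Agent.Lead.BP

/-- Adjacency in the king's graph: the Chebyshev distance of the two cells is `1`. -/
def King {n : ℕ} (c d : Fin n × Fin n) : Prop :=
  max |(c.1.val : ℤ) - d.1.val| |(c.2.val : ℤ) - d.2.val| = 1

/-- The word `w` occurs in the board `B`: consecutive letters sit on adjacent cells. -/
def Occurs {n : ℕ} (B : Fin n × Fin n ≃ Fin (n ^ 2)) (w : List ℕ) : Prop :=
  w.IsChain fun a b => ∃ c d, (B c).val = a ∧ (B d).val = b ∧ King c d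

/-- An instance `(n, P)`: `n ≥ 1` and `P` is a list of words, that is, of lists of at least two
pairwise distinct letters from `0, …, n ^ 2 - 1`. -/
def Puzzle (p : ℕ × List (List ℕ)) : Prop :=
  0 < p.1 ∧ ∀ w ∈ p.2, 2 ≤ w.length ∧ w.Nodup ∧ ∀ a ∈ w, a < p.1 ^ 2

/-- All words of `P` occur in some board. -/
def Solvable (p : ℕ × List (List ℕ)) : Prop :=
  ∃ B : Fin p.1 × Fin p.1 ≃ Fin (p.1 ^ 2), ∀ w ∈ p.2, Occurs B w

end Pool.Agent.Lead.BP
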