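import Pool.Agent.Lead.BP.Lay
import Pool.Agent.Lead.BP.BogDefs
import Pool.Agent.Lead.BP.Bog1

/-!
Boggle puzzles are NP-complete.
-/

namespace Pool.Agent.Lead.BP

open Pool.Agent.H38.NP Finset

def Sol (p : ℕ × List (List ℕ)) (φ : ℕ → ℤ × ℤ) : Prop := (∀ x < p.1 ^ 2, Bd p.1 (φ x)) ∧
  (∀ x < p.1 ^ 2, ∀ y < p.1 ^ 2, φ x = φ y → x = y) ∧ ∀ w ∈ p.2, w.IsChain fun a b => K (φ a) (φ b)

theorem solve_iff {p : ℕ × List (List ℕ)} (hp : Puzzle p) : Solvable p ↔ ∃ φ, Sol p φ := by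
  constructor
  · rintro ⟨B, h⟩
    refine ⟨fun x => if k : x < p.1 ^ 2 then ((B.symm ⟨x, k⟩).1.val, (B.symm ⟨x, k⟩).2.val) else 0,
      fun x k => ?_, fun x k y k' e => ?_, fun w hw => (h w hw).imp ?_⟩
    · simp only [dif_pos k, Bd]; omega
    · simp only [dif_pos k, dif_pos k', Prod.mk.injEq, Nat.cast_inj, Fin.val_inj] at e
      simpa using B.symm.injective (Prod.ext e.1 e.2)
    · rintro a b ⟨c, d, rfl, rfl, k⟩
      simpa [K, King] using k
  · rintro ⟨φ, h1, h2, h3⟩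
    let f : Fin (p.1 ^ 2) → Fin p.1 × Fin p.1 := fun x =>
      (⟨(φ x).1.toNat, by have := h1 x x.2; unfold Bd at this; omega⟩,
        ⟨(φ x).2.toNat, by have := h1 x x.2; unfold Bd at this; omega⟩)
    have e : ∀ x, (((f x).1.val : ℤ), ((f x).2.val : ℤ)) = φ x := fun x => by
      have := h1 x x.2
      unfold Bd at this
      exact Prod.ext (by simp only [f]; omega) (by simp only [f]; omega)
    have hf : f.Bijective := (Fintype.bijective_iff_injective_and_card f).2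
      ⟨fun x y k => Fin.ext (h2 _ x.2 _ y.2 (by rw [← e, ← e, k])), by simp [sq]⟩
    refine ⟨(Equiv.ofBijective f hf).symm, fun w hw => (h3 w hw).imp_of_mem_imp fun a b ha hb k => ?_⟩
    refine ⟨f ⟨a, (hp.2 w hw).2.2 a ha⟩, f ⟨b, (hp.2 w hw).2.2 b hb⟩, by simp, by simp, ?_⟩
    rw [← e ⟨a, (hp.2 w hw).2.2 a ha⟩, ← e ⟨b, (hp.2 w hw).2.2 b hb⟩] at k
    exact k

def adj (c d : ℕ × ℕ) : Bool := decide (c.1 ≤ d.1 + 1) && decide (d.1 ≤ c.1 + 1) &&
  decide (c.2 ≤ d.2 + 1) && decide (d.2 ≤ c.2 + 1) && !(decide (c.1 = d.1) && decide (c.2 = d.2))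

theorem adj_iff {c d : ℕ × ℕ} : adj c d = true ↔ K (c.1, c.2) (d.1, d.2) := by
  simp [adj, K_iff]; omega

def bver (p : ℕ × List (List ℕ)) (C : List (ℕ × ℕ)) : Bool :=
  (List.range (p.1 * p.1)).all (fun x => decide ((C.getD x (0, 0)).1 < p.1) &&
    decide ((C.getD x (0, 0)).2 < p.1) && (List.range (p.1 * p.1)).all fun y =>
      decide (x = y) || !decide (C.getD x (0, 0) = C.getD y (0, 0))) &&
  p.2.all fun w => (List.range (w.length - 1)).all fun i =>
    adj (C.getD (w.getD i 0) (0, 0)) (C.getD (w.getD (i + 1) 0) (0, 0))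

theorem chain_iff {R : ℕ → ℕ → Prop} {w : List ℕ} :
    w.IsChain R ↔ ∀ i < w.length - 1, R (w.getD i 0) (w.getD (i + 1) 0) := by
  rw [List.isChain_iff_getElem]
  refine ⟨fun h i hi => ?_, fun h i hi => ?_⟩
  · rw [List.getD_eq_getElem _ _ (by omega), List.getD_eq_getElem _ _ (by omega)]
    exact h i (by omega)
  · have := h i (by omega)
    rwa [List.getD_eq_getElem _ _ (by omega), List.getD_eq_getElem _ _ (by omega)] at this

theorem bver_iff {p : ℕ × List (List ℕ)} (C : List (ℕ × ℕ)) : bver p C = true ↔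
    Sol p fun x => ((C.getD x (0, 0)).1, (C.getD x (0, 0)).2) := by
  simp only [bver, Sol, Bool.and_eq_true, List.all_eq_true, List.mem_range, decide_eq_true_eq, adj_iff,
    chain_iff, sq, Bd, Bool.or_eq_true, Bool.not_eq_true', decide_eq_false_iff_not, Prod.mk.injEq,
    Nat.cast_inj, Nat.cast_lt, Nat.cast_nonneg, true_and, ← Prod.ext_iff, ← and_assoc]
  refine and_congr_left fun _ => ⟨fun h => ⟨fun x k => (h x k).1, fun x k y k' e =>
    ((h x k).2 y k').resolve_right (not_not.2 e)⟩, fun h x k => ⟨h.1 x k, fun y k' => ?_⟩⟩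
  have := h.2 x k y k'
  tauto

theorem Sol.congr {p : ℕ × List (List ℕ)} (hp : Puzzle p) {φ ψ} (h : Sol p φ)
    (e : ∀ x < p.1 ^ 2, ψ x = φ x) : Sol p ψ := by
  refine ⟨fun x k => by rw [e x k]; exact h.1 x k, fun x k y k' => by rw [e x k, e y k']; exact h.2.1 x k y k',
    fun w hw => (h.2.2 w hw).imp_of_mem_imp fun a b ha hb k => ?_⟩
  rwa [e a ((hp.2 w hw).2.2 a ha), e b ((hp.2 w hw).2.2 b hb)]

theorem bog_NP : InNPOn Puzzle Solvable := by
  refine inNPOn_of_pt bver (by unfold bver adj; fun_prop)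
    (B := fun p => p.1 * p.1 * (2 * (3 * p.1 + 1) + 1)) (PT.nat_pb (by fun_prop))
    (fun p hp h => ?_) fun p C hp h => (solve_iff hp).2 ⟨_, (bver_iff C).1 h⟩
  obtain ⟨φ, h⟩ := (solve_iff hp).1 h
  refine ⟨(List.range (p.1 * p.1)).map fun x => ((φ x).1.toNat, (φ x).2.toNat), ?_,
    (bver_iff _).2 (h.congr hp fun x k => ?_)⟩
  · refine (sz_le_of_forall (B := 3 * p.1 + 1) fun a ha => ?_).trans_eq (by simp)
    obtain ⟨x, k, rfl⟩ := List.mem_map.1 ha
    have := h.1 x (by simpa [sq] using k)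
    simp only [Bd, sz_prod, sz_nat] at this ⊢
    omega
  · have := h.1 x k
    rw [sq] at k
    unfold Bd at this
    exact Prod.ext (by simp [k]; omega) (by simp [k]; omega)

def fr (n m x : ℕ) : Bool := decide (x % n < 3) || !decide (x / n % 4 = 3) || decide (4 * m ≤ x / n)

def hole (B t : ℕ) : ℕ := (4 * (t / B) + 3) * (B + 3) + (3 + t % B)

def bred (p : List ℕ × ℕ × ℕ) : ℕ × List (List ℕ) := (p.2.2 + 3,
  ((((List.range ((p.2.2 + 3) * (p.2.2 + 3))).product (List.range ((p.2.2 + 3) * (p.2.2 + 3)))).filter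
    fun z => fr (p.2.2 + 3) p.2.1 z.1 && fr (p.2.2 + 3) p.2.1 z.2 &&
      adj (z.1 / (p.2.2 + 3), z.1 % (p.2.2 + 3)) (z.2 / (p.2.2 + 3), z.2 % (p.2.2 + 3))).map
    fun z => [z.1, z.2]) ++
  (List.range p.1.length).map fun i => (List.range' (p.1.take i).sum (p.1.getD i 0)).map (hole p.2.2))

def cell (n x : ℕ) : ℤ × ℤ := ((x / n : ℕ), (x % n : ℕ))

theorem cell_inj {n x y : ℕ} (h : cell n x = cell n y) : x = y := by
  simp only [cell, Prod.mk.injEq, Nat.cast_inj] at h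
  rw [← Nat.div_add_mod x n, h.1, h.2, Nat.div_add_mod]

theorem fr_iff {n m x : ℕ} (h : x < n ^ 2) : fr n m x = true ↔ Fr n m (cell n x).1 (cell n x).2 := by
  have h0 : 0 < n := Nat.pos_of_ne_zero (by rintro rfl; simp at h)
  have h1 : x / n < n := (Nat.div_lt_iff_lt_mul h0).2 (by rwa [← sq])
  have h2 := Nat.mod_lt x h0
  simp only [fr, cell, Fr, Bool.or_eq_true, decide_eq_true_eq, Bool.not_eq_true', decide_eq_false_iff_not]
  generalize x / n = a at *
  omega

theorem take_sum (L : List ℕ) (i : ℕ) : (L.take i).sum = ∑ k ∈ range i, L.getD k 0 := by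
  induction i with
  | zero => simp
  | succ i ih => rw [List.take_add_one, List.sum_append, ih, sum_range_succ]; cases e : L[i]? <;> simp [e]

theorem forall_bred {p : List ℕ × ℕ × ℕ} {Q : List ℕ → Prop} : (∀ w ∈ (bred p).2, Q w) ↔
    (∀ x < (p.2.2 + 3) ^ 2, ∀ y < (p.2.2 + 3) ^ 2, fr (p.2.2 + 3) p.2.1 x → fr (p.2.2 + 3) p.2.1 y →
      K (cell (p.2.2 + 3) x) (cell (p.2.2 + 3) y) → Q [x, y]) ∧ ∀ i < p.1.length,
    Q ((List.range' (∑ k ∈ range i, p.1.getD k 0) (p.1.getD i 0)).map (hole p.2.2)) := by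
  simp only [bred, List.forall_mem_append, List.forall_mem_map, List.mem_filter, Prod.forall, sq,
    List.mem_range, take_sum, Bool.and_eq_true, adj_iff, List.pair_mem_product, cell]
  exact and_congr_left fun _ => ⟨fun h x a y b c d e => h x y ⟨⟨a, b⟩, ⟨c, d⟩, e⟩,
    fun h x y k => h x k.1.1 y k.1.2 k.2.1.1 k.2.1.2 k.2.2⟩

section
variable {m B : ℕ} (h1 : 0 < m) (h2 : 4 * m ≤ B)
include h1 h2

theorem cell_hole (t : ℕ) : hole B t / (B + 3) = 4 * (t / B) + 3 ∧ hole B t % (B + 3) = 3 + t % B := by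
  have := Nat.mod_lt t (show 0 < B by omega)
  rw [hole, add_comm, Nat.add_mul_div_right _ _ (by omega), Nat.add_mul_mod_self_right,
    Nat.div_eq_of_lt (by omega), Nat.mod_eq_of_lt (by omega)]
  simp

theorem hole_inj : (hole B).Injective := fun t t' e => by
  obtain ⟨a1, a2⟩ := cell_hole h1 h2 t
  obtain ⟨b1, b2⟩ := cell_hole h1 h2 t'
  rw [e] at a1 a2
  rw [← Nat.div_add_mod t B, ← Nat.div_add_mod t' B, show t / B = t' / B by omega,
    show t % B = t' % B by omega]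

theorem hole_lt {t : ℕ} (h : t < m * B) : hole B t < (B + 3) ^ 2 ∧ fr (B + 3) m (hole B t) = false := by
  obtain ⟨a1, a2⟩ := cell_hole h1 h2 t
  have a3 : t / B < m := (Nat.div_lt_iff_lt_mul (by omega)).2 h
  refine ⟨by rw [sq, ← Nat.div_lt_iff_lt_mul (by omega)]; omega, ?_⟩
  simp only [fr, a1, a2]
  simp; omega

omit h1 h2 in
theorem ex_hole (x : ℕ) (k : fr (B + 3) m x = false) : ∃ t < m * B, hole B t = x := by
  simp [fr] at k
  have a1 := Nat.mod_lt x (show 0 < B + 3 by omega)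
  have a2 : x % (B + 3) - 3 < B := by omega
  have a3 : (x / (B + 3) / 4 + 1) * B ≤ m * B := Nat.mul_le_mul_right _ (by omega)
  refine ⟨x % (B + 3) - 3 + x / (B + 3) / 4 * B, by rw [Nat.succ_mul] at a3; omega, ?_⟩
  rw [hole, Nat.add_mul_div_right _ _ (by omega), Nat.add_mul_mod_self_right, Nat.div_eq_of_lt a2,
    Nat.mod_eq_of_lt a2, show 4 * (0 + x / (B + 3) / 4) + 3 = x / (B + 3) by omega,
    show 3 + (x % (B + 3) - 3) = x % (B + 3) by omega, Nat.div_add_mod']

end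

theorem pre_le (L : List ℕ) {i j : ℕ} (h : i < j) :
    ∑ k ∈ range i, L.getD k 0 + L.getD i 0 ≤ ∑ k ∈ range j, L.getD k 0 := by
  rw [← sum_range_succ]
  exact sum_le_sum_of_subset (range_subset_range.2 h)

theorem bred_ok {p : List ℕ × ℕ × ℕ} (ho : Ok p) : Puzzle (bred p) := by
  obtain ⟨o1, o2, o3, o4⟩ := ho
  refine ⟨Nat.succ_pos _, forall_bred.2 ⟨fun x a y b _ _ k => ⟨le_rfl, ?_, by simpa using ⟨a, b⟩⟩,
    fun i hi => ⟨?_, (List.nodup_range' ..).map (hole_inj o3 o4), fun x hx => ?_⟩⟩⟩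
  · have : x ≠ y := by rintro rfl; simp [K] at k
    simpa using this
  · simpa [hi] using o1 _ (List.getElem_mem hi)
  · obtain ⟨t, ht, rfl⟩ := List.mem_map.1 hx
    have := pre_le p.1 hi
    rw [sum_getD, o2] at this
    rw [List.mem_range'_1] at ht
    exact (hole_lt o3 o4 (by omega)).1

theorem byes {p : List ℕ × ℕ × ℕ} (ho : Ok p) (h : Pack p) : ∃ φ, Sol (bred p) φ := by
  obtain ⟨g, st, h1, h2, -⟩ := h.lay
  obtain ⟨L, m, B⟩ := p
  obtain ⟨-, o2, o3, o4⟩ := ho
  simp only at h1 h2 o2 o3 o4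
  have c := fun t (k : t < m * B) => cover (L.getD · 0) (fun _ => 0) 0 L.length t
    (by simpa [← o2, ← sum_getD] using k)
  simp only [filter_true, true_and] at c
  choose! I i1 i2 i3 using c
  choose! T t1 t2 using @ex_hole m B
  let q : ℕ → ℤ × ℤ := fun t =>
    ((4 * g (I t) + 3 : ℕ), (3 + st (I t) + (t - ∑ k ∈ range (I t), L.getD k 0) : ℕ))
  have hq : ∀ t < m * B, Bd (B + 3 : ℕ) (q t) ∧ ¬Fr (B + 3 : ℕ) m (q t).1 (q t).2 := fun t k => by
    have := h1 _ (i1 t k)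
    have := i2 t k
    have := i3 t k
    simp only [q, Bd, Fr]
    omega
  refine ⟨fun x => if fr (B + 3) m x then cell (B + 3) x else q (T x), fun x k => ?_,
    fun x k y k' => ?_, forall_bred.2 ⟨fun x _ y _ a b c => by simp [a, b, c], fun i hi => ?_⟩⟩
  · simp only
    split_ifs with a
    · exact ⟨((fr_iff k).1 a).1, ((fr_iff k).1 a).2.1, ((fr_iff k).1 a).2.2.1, ((fr_iff k).1 a).2.2.2.1⟩
    · exact (hq _ (t1 _ (by simpa using a))).1
  · simp only
    split_ifs with a b b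
    · exact cell_inj
    · exact fun e => ((hq _ (t1 _ (by simpa using b))).2 (e ▸ (fr_iff k).1 a)).elim
    · exact fun e => ((hq _ (t1 _ (by simpa using a))).2 (e ▸ (fr_iff k').1 b)).elim
    intro e
    rw [Bool.not_eq_true] at a b
    simp only [q, Prod.mk.injEq, Nat.cast_inj] at e
    have a1 := i2 _ (t1 _ a)
    have a2 := i3 _ (t1 _ a)
    have b1 := i2 _ (t1 _ b)
    have b2 := i3 _ (t1 _ b)
    have e' := h2 (I (T x)) (I (T y)) (st (I (T x)) + (T x - ∑ k ∈ range (I (T x)), L.getD k 0))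
      (by omega) (by omega) (by omega) (by omega) (by omega)
    rw [← t2 _ a, ← t2 _ b]
    rw [e'] at a1 e
    rw [show T x = T y by omega]
  · have e : ∀ t, ∑ k ∈ range i, L.getD k 0 ≤ t → t < ∑ k ∈ range i, L.getD k 0 + L.getD i 0 →
        (if fr (B + 3) m (hole B t) then cell (B + 3) (hole B t) else q (T (hole B t))) =
        (((4 * g i + 3 : ℕ) : ℤ), ((3 + st i + (t - ∑ k ∈ range i, L.getD k 0) : ℕ) : ℤ)) := by
      intro t a1 a2
      have a3 := pre_le L hi
      rw [sum_getD, o2] at a3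
      obtain ⟨a4, a5⟩ := hole_lt o3 o4 (show t < m * B by omega)
      have a6 : I t = i := by
        have b1 := i2 t (by omega)
        have b2 := i3 t (by omega)
        rcases lt_trichotomy (I t) i with b | b | b
        · have := pre_le L b; omega
        · exact b
        · have := pre_le L b; omega
      rw [a5, hole_inj o3 o4 (t2 _ a5)]
      simp only [q, a6]
      rfl
    rw [List.isChain_map, List.isChain_iff_getElem]
    intro k hk
    simp only [List.length_range'] at hk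
    simp only [List.getElem_range', one_mul]
    rw [e _ (by omega) (by omega), e _ (by omega) (by omega), K_iff]
    simp only
    omega

theorem bno {p : List ℕ × ℕ × ℕ} (ho : Ok p) {φ} (h : Sol (bred p) φ) : Pack p := by
  obtain ⟨h1, h2, h3⟩ := h
  obtain ⟨h3, h4⟩ := forall_bred.1 h3
  obtain ⟨L, m, B⟩ := p
  obtain ⟨-, o2, o3, o4⟩ := ho
  simp only [bred] at h1 h2 h3 h4 o2 o3 o4
  have z : ∀ r c, Bd (B + 3 : ℕ) (r, c) → r.toNat * (B + 3) + c.toNat < (B + 3) ^ 2 ∧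
      cell (B + 3) (r.toNat * (B + 3) + c.toNat) = (r, c) := fun r c k => by
    simp only [Bd] at k
    have a1 : c.toNat < B + 3 := by omega
    have a2 : (r.toNat + 1) * (B + 3) ≤ (B + 3) * (B + 3) := Nat.mul_le_mul_right _ (by omega)
    refine ⟨by rw [Nat.succ_mul, ← sq] at a2; omega, ?_⟩
    rw [cell, add_comm, Nat.add_mul_div_right _ _ (by omega), Nat.add_mul_mod_self_right,
      Nat.div_eq_of_lt a1, Nat.mod_eq_of_lt a1]
    exact Prod.ext (by simp only; omega) (by simp only; omega)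
  have z' : ∀ {r c}, Fr (B + 3 : ℕ) m r c → Bd (B + 3 : ℕ) (r, c) := fun k => ⟨k.1, k.2.1, k.2.2.1, k.2.2.2.1⟩
  obtain ⟨o, u, v, k1, k2⟩ := rigid (n := (B + 3 : ℕ)) (m := m) (by omega) (by omega)
    (ψ := fun r c => φ (r.toNat * (B + 3) + c.toNat)) fun r c r' c' a b => by
      obtain ⟨a1, a2⟩ := z r c (z' a)
      obtain ⟨b1, b2⟩ := z r' c' (z' b)
      refine ⟨fun k => ?_, fun e => by rw [← a2, ← b2, h2 _ a1 _ b1 e]⟩
      simpa using h3 _ a1 _ b1 ((fr_iff a1).2 (by rwa [a2])) ((fr_iff b1).2 (by rwa [b2])) (by rwa [a2, b2])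
  have f0 : Fr (B + 3 : ℕ) m 0 0 := by unfold Fr; omega
  have f1 : Fr (B + 3 : ℕ) m ((B + 3 : ℕ) - 1) ((B + 3 : ℕ) - 1) := by unfold Fr; omega
  obtain ⟨τ, t1, t2, t3, t4⟩ := unfold_iso (n := (B + 3 : ℕ)) (o := o) k1
    (by have := h1 _ (z _ _ (z' f0)).1; rw [k2 _ _ f0] at this; simpa using this) (k2 _ _ f1 ▸ h1 _ (z _ _ (z' f1)).1)
  have pos : ∀ t < m * B, Bd (B + 3 : ℕ) (τ (φ (hole B t))) ∧
      ¬Fr (B + 3 : ℕ) m (τ (φ (hole B t))).1 (τ (φ (hole B t))).2 := fun t k => by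
    obtain ⟨a1, a2⟩ := hole_lt o3 o4 k
    refine ⟨t2 _ (h1 _ a1), fun a => ?_⟩
    obtain ⟨b1, b2⟩ := z _ _ (z' a)
    have b3 := (fr_iff b1).2 (by rwa [b2])
    have b4 := t1 (τ (φ (hole B t))).1 (τ (φ (hole B t))).2
    rw [← k2 _ _ a] at b4
    rw [h2 _ b1 _ a1 (t3 b4), a2] at b3
    cases b3
  have bd : ∀ i < L.length, ∑ k ∈ range i, L.getD k 0 + L.getD i 0 ≤ m * B := fun i hi => by
    have := pre_le L hi
    rwa [sum_getD, o2] at this
  have same : ∀ i < L.length, ∀ k < L.getD i 0, (τ (φ (hole B (∑ k ∈ range i, L.getD k 0 + k)))).1 =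
      (τ (φ (hole B (∑ k ∈ range i, L.getD k 0)))).1 := fun i hi k hk => by
    induction k with
    | zero => rfl
    | succ k ih =>
      have a1 := h4 i hi
      rw [List.isChain_map, List.isChain_iff_getElem] at a1
      have a2 := K_iff.1 (t4 _ _ (a1 k (by simpa using hk)))
      simp only [List.getElem_range', one_mul] at a2
      have a3 := bd i hi
      have a4 := pos (∑ k ∈ range i, L.getD k 0 + k) (by omega)
      have a5 := pos (∑ k ∈ range i, L.getD k 0 + (k + 1)) (by omega)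
      rw [← ih (by omega)]
      simp only [Bd, Fr] at a4 a5
      omega
  refine pack_of_le o2 (fun i => min (m - 1) ((τ (φ (hole B (∑ k ∈ range i, L.getD k 0)))).1.toNat / 4))
    (fun i _ => by simp only; omega) fun j _ => ?_
  simp only
  rw [sum_congr rfl fun i _ => (card_range (L.getD i 0)).symm, ← card_sigma]
  have mem : ∀ x ∈ ({i ∈ range L.length | min (m - 1)
      ((τ (φ (hole B (∑ k ∈ range i, L.getD k 0)))).1.toNat / 4) = j}).sigma fun i => range (L.getD i 0),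
      x.2 < L.getD x.1 0 ∧ ∑ k ∈ range x.1, L.getD k 0 + x.2 < m * B ∧
      (τ (φ (hole B (∑ k ∈ range x.1, L.getD k 0 + x.2)))).1 = 4 * j + 3 ∧
      3 ≤ (τ (φ (hole B (∑ k ∈ range x.1, L.getD k 0 + x.2)))).2 ∧
      (τ (φ (hole B (∑ k ∈ range x.1, L.getD k 0 + x.2)))).2 < B + 3 := by
    simp only [mem_sigma, mem_filter, mem_range]
    rintro ⟨i, k⟩ ⟨⟨a1, a2⟩, a3⟩
    have a4 := bd i a1
    have a5 := pos (∑ k ∈ range i, L.getD k 0 + k) (by simp only at a3; omega)
    rw [← same i a1 k a3] at a2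
    simp only [Bd, Fr] at a2 a3 a5 ⊢
    omega
  refine (card_le_card_of_injOn (t := range B)
    (fun x => (τ (φ (hole B (∑ k ∈ range x.1, L.getD k 0 + x.2)))).2.toNat - 3)
    (fun x hx => ?_) fun x hx y hy e => ?_).trans_eq (card_range B)
  · have := mem x hx
    simp only [coe_range, Set.mem_Iio]; omega
  · obtain ⟨a1, a2, a3⟩ := mem x hx
    obtain ⟨b1, b2, b3⟩ := mem y hy
    have e1 := hole_inj o3 o4 (h2 _ (hole_lt o3 o4 a2).1 _ (hole_lt o3 o4 b2).1
      (t3 (Prod.ext (by omega) (by simp only at e; omega))))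
    obtain ⟨i, k⟩ := x
    obtain ⟨i', k'⟩ := y
    simp only at a1 b1 e1
    obtain rfl : i = i' := by
      rcases lt_trichotomy i i' with b | b | b
      · have := pre_le L b; omega
      · exact b
      · have := pre_le L b; omega
    rw [show k = k' by omega]

theorem bog_nph : NPH Puzzle Solvable :=
  pack_nph.reduce bred (by unfold bred fr adj hole; fun_prop) fun _ hp => ⟨bred_ok hp,
    fun h => (solve_iff (bred_ok hp)).2 (byes hp h), fun h => ((solve_iff (bred_ok hp)).1 h).elim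
      fun _ => bno hp⟩

end Pool.Agent.Lead.BP
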