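import Pool.Agent.H38.NP.Defs

/-!
Just-in-time sequences with prescribed distances.
-/

namespace Pool.Agent.Lead.BP

open Pool.Agent.H38.NP

/-- The positions (counted from `0`, increasing) of the letter `i` in the word `S`. -/
def posns (S : List ℕ) (i : ℕ) : List ℕ := (List.range S.length).filter fun k => S[k]? = some i

/-- The distances of the letter `i` in the cyclically read word `S`: the differences of consecutive
positions, followed by the wrap-around distance `p_1 + D - p_d`. -/
def dists (S : List ℕ) (i : ℕ) : List ℕ :=
  List.zipWith (fun a b => b - a) (posns S i) ((posns S i).tail ++ [(posns S i).headD 0 + S.length])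

/-- An instance lists the pairs `(d_i, α^i)`, all numbers in binary. -/
abbrev Inst := List (Bin × List Bin)

/-- Each `d_i` is positive and `α^i` is a decomposition vector of `D = ∑ d_i` into `d_i`
components. -/
def Valid (p : Inst) : Prop := ∀ x ∈ p, 0 < x.1.val ∧ x.2.length = x.1.val ∧
  (∀ a ∈ x.2, 0 < a.val) ∧ (x.2.map Bin.val).Pairwise (· ≥ ·) ∧
  (x.2.map Bin.val).sum = (p.map fun y => y.1.val).sum

/-- Some word over the letters `0, …, n - 1` contains each letter `i` exactly `d_i` times and has
the components of `α^i` as the multiset of distances of `i`. -/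
def Feas (p : Inst) : Prop := ∃ S : List ℕ, (∀ s ∈ S, s < p.length) ∧ ∀ i : Fin p.length,
  S.count i.val = (p.get i).1.val ∧ (dists S i).Perm ((p.get i).2.map Bin.val)

end Pool.Agent.Lead.BP
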