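import Pool.Agent.Lead.BP.Lay
import Pool.Agent.Lead.BP.JitDefs
import Pool.Agent.H36.Maj

/-!
Feasibility of prescribed distances is NP-complete.
-/

namespace Pool.Agent.Lead.BP

open Pool.Agent.H38.NP Pool.Agent.H38.ER Finset

variable {S : List ℕ} {i : ℕ}

theorem mem_posns {k} : k ∈ posns S i ↔ S[k]? = some i := by
  simp only [posns, List.mem_filter, List.mem_range, decide_eq_true_eq, and_iff_right_iff_imp]
  exact fun h => (List.getElem?_eq_some_iff.1 h).1

theorem posns_lt : (posns S i).Pairwise (· < ·) := List.pairwise_lt_range.filter _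

theorem len_posns : (posns S i).length = S.count i := by
  rw [posns, ← List.countP_eq_length_filter]
  induction S with
  | nil => rfl
  | cons a S ih =>
    rw [List.length_cons, List.range_succ_eq_map, List.countP_cons, List.countP_map, List.count_cons, ← ih]
    simp [Function.comp_def]

/-- the positions followed by the first position shifted by the length -/
def Q (S : List ℕ) (i r : ℕ) : ℕ :=
  if r < (posns S i).length then (posns S i).getD r 0 else (posns S i).getD 0 0 + S.length

theorem dists_eq (h : 0 < S.count i) :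
    dists S i = (List.range (S.count i)).map fun r => Q S i (r + 1) - Q S i r := by
  rw [← len_posns] at h ⊢
  refine List.ext_getElem (by simp [dists]; omega) fun r h1 h2 => ?_
  have hr : r < (posns S i).length := by simpa using h2
  simp only [dists, List.getElem_zipWith, List.getElem_map, List.getElem_range, Q, hr, if_true,
    List.getD_eq_getElem _ _ hr, List.getElem_append, List.length_tail, List.getElem_tail]
  by_cases e : r + 1 < (posns S i).length
  · simp [e, show r < (posns S i).length - 1 by omega]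
  · rw [dif_neg (by omega), if_neg e]
    simp [List.head?_eq_getElem?]

theorem len_eq {n : ℕ} (h : ∀ s ∈ S, s < n) : S.length = ∑ i ∈ range n, S.count i := by
  simpa using (Multiset.sum_count_eq_card (s := range n) (m := S) (by simpa using h)).symm

def jred (p : List ℕ × ℕ × ℕ) : Inst :=
  (⟨p.2.1⟩, List.replicate p.2.1 ⟨p.2.2 + 1⟩) :: p.1.map fun a =>
    (⟨a⟩, ⟨p.2.1 * (p.2.2 + 1) + 1 - a⟩ :: List.replicate (a - 1) ⟨1⟩)

theorem feas_iff (p : List ℕ × ℕ × ℕ) : Feas (jred p) ↔ ∃ S : List ℕ, (∀ s ∈ S, s < p.1.length + 1) ∧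
    (S.count 0 = p.2.1 ∧ (dists S 0).Perm (List.replicate p.2.1 (p.2.2 + 1))) ∧ ∀ i < p.1.length,
    S.count (i + 1) = p.1.getD i 0 ∧ (dists S (i + 1)).Perm
      ((p.2.1 * (p.2.2 + 1) + 1 - p.1.getD i 0) :: List.replicate (p.1.getD i 0 - 1) 1) := by
  refine exists_congr fun S => and_congr (by simp [jred]) ?_
  refine (Fin.forall_fin_succ (n := (p.1.map _).length)).trans (and_congr (by simp [jred]) ?_)
  refine ⟨fun h i hi => ?_, fun h i => ?_⟩
  · simpa [jred, hi] using h ⟨i, by simpa using hi⟩
  · have hi : i.val < p.1.length := by simpa using i.2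
    simpa [jred, hi] using h i hi

theorem jyes {p : List ℕ × ℕ × ℕ} (ho : Ok p) (h : Pack p) : Feas (jred p) := by
  obtain ⟨g, st, h1, h2, h3⟩ := h.lay
  obtain ⟨L, m, B⟩ := p
  obtain ⟨o1, -, o3, -⟩ := ho
  simp only at h1 h2 h3 o1 o3
  choose! w w1 w2 w3 w4 using h3
  let s : ℕ → ℕ := fun k => if k % (B + 1) = 0 then 0 else w (k / (B + 1)) (k % (B + 1) - 1) + 1
  have hS : ∀ k i, ((List.range (m * (B + 1))).map s)[k]? = some i ↔ k < m * (B + 1) ∧ s k = i :=
    fun k i => by simp [List.getElem?_eq_some_iff]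
  have d : ∀ k < m * (B + 1), k / (B + 1) < m ∧ k % (B + 1) < B + 1 := fun k hk =>
    ⟨(Nat.div_lt_iff_lt_mul (by omega)).2 hk, Nat.mod_lt _ (by omega)⟩
  refine (feas_iff _).2 ⟨(List.range (m * (B + 1))).map s, fun x hx => ?_, ?_, fun i hi => ?_⟩
  · obtain ⟨k, hk, rfl⟩ := List.mem_map.1 hx
    obtain ⟨d1, d2⟩ := d k (List.mem_range.1 hk)
    simp only [s]
    split_ifs
    exacts [Nat.succ_pos _, Nat.succ_lt_succ (w1 _ d1 _ (by omega))]
  · have e : posns ((List.range (m * (B + 1))).map s) 0 = (List.range m).map (· * (B + 1)) := by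
      refine posns_lt.eq_of_mem_iff (List.pairwise_lt_range.map _ fun a b h => by nlinarith) fun k => ?_
      rw [mem_posns, hS]
      simp only [s, List.mem_map, List.mem_range, ite_eq_left_iff, Nat.add_eq_zero_iff, one_ne_zero,
        and_false, imp_false, not_not]
      exact ⟨fun h => ⟨_, (d k h.1).1, Nat.div_mul_cancel (Nat.dvd_of_mod_eq_zero h.2)⟩,
        by rintro ⟨j, hj, rfl⟩; exact ⟨by nlinarith, by simp⟩⟩
    have c : ((List.range (m * (B + 1))).map s).count 0 = m := by rw [← len_posns, e]; simp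
    refine ⟨c, List.Perm.of_eq ?_⟩
    have q : ∀ r ≤ m, Q ((List.range (m * (B + 1))).map s) 0 r = r * (B + 1) := fun r hr => by
      rw [Q, e]
      split_ifs with h
      · simpa using by simpa using List.getD_eq_getElem _ 0 h
      · simp [o3, show r = m by simp at h; omega]
    rw [dists_eq (by omega), c, List.eq_replicate_iff]
    refine ⟨by simp, fun x hx => ?_⟩
    obtain ⟨r, hr, rfl⟩ := List.mem_map.1 hx
    rw [List.mem_range] at hr
    rw [q _ hr, q _ hr.le, Nat.succ_mul, Nat.add_sub_cancel_left]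
  · obtain ⟨k1, k2⟩ := h1 i hi
    have k3 : 2 ≤ L.getD i 0 := o1 _ (by rw [List.getD_eq_getElem _ _ hi]; exact List.getElem_mem hi)
    have k4 : g i * (B + 1) + (B + 1) ≤ m * (B + 1) := by nlinarith
    simp only
    generalize ha : L.getD i 0 = a at k2 k3
    have e : posns ((List.range (m * (B + 1))).map s) (i + 1) =
        List.range' (g i * (B + 1) + 1 + st i) a := by
      refine posns_lt.eq_of_mem_iff List.pairwise_lt_range' fun k => ?_
      rw [mem_posns, hS, List.mem_range'_1]
      constructor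
      · rintro ⟨a1, a2⟩
        obtain ⟨d1, d2⟩ := d k a1
        simp only [s] at a2
        split_ifs at a2 with a3
        have a4 := w2 _ d1 (k % (B + 1) - 1) (by omega)
        have a5 := w3 _ d1 (k % (B + 1) - 1) (by omega)
        have a6 := w4 _ d1 (k % (B + 1) - 1) (by omega)
        rw [Nat.succ_injective a2] at a4 a5 a6
        have := Nat.div_add_mod' k (B + 1)
        rw [a4]; omega
      · intro a1
        obtain ⟨t, rfl⟩ : ∃ t, k = t + 1 + g i * (B + 1) := ⟨k - 1 - g i * (B + 1), by omega⟩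
        have a2 : t < B := by omega
        refine ⟨by omega, ?_⟩
        simp only [s, Nat.add_mul_mod_self_right, Nat.add_mul_div_right _ _ (Nat.succ_pos B),
          Nat.mod_eq_of_lt (Nat.succ_lt_succ a2), Nat.div_eq_of_lt (Nat.succ_lt_succ a2), zero_add]
        rw [if_neg (by omega), Nat.succ_sub_one,
          h2 _ i t (w2 _ k1 t a2) (w3 _ k1 t a2) (w4 _ k1 t a2) (by omega) (by omega)]
    have c : ((List.range (m * (B + 1))).map s).count (i + 1) = a := by rw [← len_posns, e]; simp
    refine ⟨c, ?_⟩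
    obtain ⟨b, rfl⟩ : ∃ b, a = b + 1 := ⟨a - 1, by omega⟩
    rw [dists_eq (by omega), c, List.range_succ, List.map_append]
    refine List.perm_append_comm.trans (List.Perm.of_eq ?_)
    simp only [Q, e, List.length_range', List.map_cons, List.map_nil, List.cons_append,
      List.nil_append, lt_irrefl, if_false, Nat.lt_succ_self, if_true, List.cons.injEq]
    refine ⟨by simp; omega, List.eq_replicate_iff.2 ⟨by simp, fun x hx => ?_⟩⟩
    obtain ⟨r, hr, rfl⟩ := List.mem_map.1 hx
    rw [List.mem_range] at hr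
    simp [hr, hr.le]; omega

theorem Q_mem {r} (h : r < S.count i) : S[Q S i r]? = some i := by
  rw [← len_posns] at h
  rw [Q, if_pos h, List.getD_eq_getElem _ _ h]
  exact mem_posns.1 (List.getElem_mem h)

theorem Q_last : Q S i (S.count i) = (posns S i).getD 0 0 + S.length := by simp [Q, len_posns]

theorem Q_zero (h : 0 < S.count i) : Q S i 0 = (posns S i).getD 0 0 := by simp [Q, len_posns, h]

theorem Q_sur {k} (h : S[k]? = some i) : ∃ r < S.count i, Q S i r = k := by
  obtain ⟨r, hr, e⟩ := List.getElem_of_mem (mem_posns.2 h)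
  exact ⟨r, len_posns ▸ hr, by rw [Q, if_pos hr, List.getD_eq_getElem _ _ hr, e]⟩

theorem jno {p : List ℕ × ℕ × ℕ} (ho : Ok p) (h : Feas (jred p)) : Pack p := by
  obtain ⟨S, h1, ⟨h2, h3⟩, h4⟩ := (feas_iff p).1 h
  obtain ⟨L, m, B⟩ := p
  obtain ⟨o1, o2, o3, -⟩ := ho
  simp only at h1 h2 h3 h4 o1 o2 o3
  have hD : S.length = m * (B + 1) := by
    rw [len_eq h1, sum_range_succ', h2, sum_congr rfl fun i hi => (h4 i (mem_range.1 hi)).1, sum_getD,
      o2]
    ring
  have q0 : ∀ r ≤ m, Q S 0 r = Q S 0 0 + r * (B + 1) := by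
    intro r
    induction r with
    | zero => simp
    | succ r ih =>
      intro hr
      have := List.eq_of_mem_replicate (h3.subset (a := Q S 0 (r + 1) - Q S 0 r) (by
        rw [dists_eq (by omega), h2]; exact List.mem_map.2 ⟨r, List.mem_range.2 hr, rfl⟩))
      rw [Nat.succ_mul, ← add_assoc, ← ih (by omega)]; omega
  have lt : ∀ {k i}, S[k]? = some i → k < m * (B + 1) := fun h => hD ▸ (List.getElem?_eq_some_iff.1 h).1
  obtain ⟨m, rfl⟩ : ∃ m', m = m' + 1 := ⟨m - 1, by omega⟩
  obtain ⟨c, hc⟩ : ∃ c, Q S 0 0 + c + 1 = B + 1 := by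
    have := lt (Q_mem (i := 0) (r := m) (by omega))
    rw [q0 m (by omega), Nat.succ_mul] at this
    exact ⟨B - Q S 0 0, by omega⟩
  have sep : ∀ k i, S[k]? = some (i + 1) → (k + c + 1) % (B + 1) ≠ 0 := fun k i hk e => by
    obtain ⟨r, hr⟩ := Nat.dvd_of_mod_eq_zero e
    obtain ⟨r, rfl⟩ : ∃ r', r = r' + 1 := ⟨r - 1, by cases r <;> simp at hr ⊢⟩
    have k1 := lt hk
    have k2 : k = Q S 0 0 + r * (B + 1) := by rw [Nat.mul_succ, mul_comm] at hr; omega
    have k3 : r < m + 1 := by
      by_contra k3
      have := Nat.mul_le_mul_right (B + 1) (not_lt.1 k3)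
      omega
    have := Q_mem (S := S) (i := 0) (r := r) (by omega)
    rw [q0 r k3.le, ← k2, hk] at this
    cases this
  let γ : ℕ → ℕ := fun k => (k + c + 1) / (B + 1) % (m + 1)
  have same : ∀ i < L.length, ∀ k, S[k]? = some (i + 1) → γ k = γ (Q S (i + 1) 0) := by
    intro i hi k hk
    obtain ⟨a1, a2⟩ := h4 i hi
    have a3 : 2 ≤ L.getD i 0 := o1 _ (by rw [List.getD_eq_getElem _ _ hi]; exact List.getElem_mem hi)
    rw [← a1] at a2 a3
    have a4 : Q S (i + 1) (S.count (i + 1)) = Q S (i + 1) 0 + (m + 1) * (B + 1) := by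
      rw [Q_last, Q_zero (by omega), hD]
    have a5 : γ (Q S (i + 1) (S.count (i + 1))) = γ (Q S (i + 1) 0) := by
      simp only [γ, a4]
      rw [show ∀ x y, x + y + c + 1 = x + c + 1 + y from fun _ _ => by ring,
        Nat.add_mul_div_right _ _ (Nat.succ_pos B), Nat.add_mod_right]
    obtain ⟨e, he⟩ : ∃ e, ∀ r < S.count (i + 1), r ≠ e → Q S (i + 1) (r + 1) - Q S (i + 1) r = 1 := by
      have k1 := a2.countP_eq (· ≠ 1)
      rw [dists_eq (by omega), List.countP_map, List.countP_cons, List.countP_replicate,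
        List.countP_eq_length_filter] at k1
      by_contra! k2
      obtain ⟨r, b1, -, b2⟩ := k2 0
      obtain ⟨r', b3, b4, b5⟩ := k2 r
      have := card_le_card (s := {r', r}) (t := (List.filter ((fun x => decide (x ≠ 1)) ∘ fun r =>
        Q S (i + 1) (r + 1) - Q S (i + 1) r) (List.range (S.count (i + 1)))).toFinset)
        (by simp [subset_iff, b1, b2, b3, b5])
      have k3 := (this.trans (List.toFinset_card_le _)).trans_eq k1
      rw [card_pair b4] at k3
      simp at k3
      split_ifs at k3 <;> omega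
    have step : ∀ r < S.count (i + 1), r ≠ e → γ (Q S (i + 1) (r + 1)) = γ (Q S (i + 1) r) := by
      intro r hr hre
      have b1 : Q S (i + 1) (r + 1) = Q S (i + 1) r + 1 := by have := he r hr hre; omega
      have b2 : (Q S (i + 1) (r + 1) + c + 1) % (B + 1) ≠ 0 := by
        rcases Nat.lt_or_ge (r + 1) (S.count (i + 1)) with b | b
        · exact sep _ i (Q_mem b)
        · rw [show r + 1 = S.count (i + 1) by omega, a4,
            show ∀ x y, x + y + c + 1 = x + c + 1 + y from fun _ _ => by ring, Nat.add_mul_mod_self_right]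
          exact sep _ i (Q_mem (by omega))
      simp only [γ]
      rw [b1, show ∀ x, x + 1 + c + 1 = x + c + 1 + 1 from fun _ => by ring] at b2 ⊢
      rw [Nat.succ_div_of_mod_ne_zero b2]
    obtain ⟨r, hr, rfl⟩ := Q_sur hk
    rcases le_or_gt r e with b | b
    · clear hk
      induction r with
      | zero => rfl
      | succ r ih => rw [step r (by omega) (by omega), ih (by omega) (by omega)]
    · rw [← a5]
      refine Nat.decreasingInduction' (P := fun r => γ (Q S (i + 1) r) =
        γ (Q S (i + 1) (S.count (i + 1)))) (fun k k1 k2 k3 => ?_) hr.le rfl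
      rw [← step k k1 (by omega), k3]
  refine pack_of_le o2 (fun i => γ (Q S (i + 1) 0)) (fun i _ => Nat.mod_lt _ o3) fun j _ => ?_
  simp only
  rw [sum_congr rfl (g := fun i => #(posns S (i + 1)).toFinset) fun i hi => by
      rw [List.toFinset_card_of_nodup (posns_lt.imp ne_of_lt), len_posns,
        (h4 i (mem_range.1 (mem_filter.1 hi).1)).1],
    ← card_biUnion fun i _ i' _ hne => disjoint_left.2 fun k a b => hne (by
      simpa using (mem_posns.1 (List.mem_toFinset.1 a)).symm.trans (mem_posns.1 (List.mem_toFinset.1 b)))]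
  have mem : ∀ k ∈ ({i ∈ range L.length | γ (Q S (i + 1) 0) = j}).biUnion
      fun i => (posns S (i + 1)).toFinset, k < (m + 1) * (B + 1) ∧ (k + c + 1) % (B + 1) ≠ 0 ∧ γ k = j := by
    simp only [mem_biUnion, mem_filter, mem_range, List.mem_toFinset, mem_posns]
    rintro k ⟨i, ⟨hi, rfl⟩, hk⟩
    exact ⟨lt hk, sep k i hk, same i hi k hk⟩
  refine (card_le_card_of_injOn (t := range B) (fun k => (k + c + 1) % (B + 1) - 1)
    (fun k hk => ?_) fun k hk k' hk' e => ?_).trans_eq (card_range B)
  · have := (mem k hk).2.1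
    have := Nat.mod_lt (k + c + 1) (Nat.succ_pos B)
    simp only [coe_range, Set.mem_Iio, Nat.succ_eq_add_one] at this ⊢; omega
  · obtain ⟨a1, a2, a3⟩ := mem k hk
    obtain ⟨b1, b2, b3⟩ := mem k' hk'
    have e1 : (k + c + 1) % (B + 1) = (k' + c + 1) % (B + 1) := by simp only at e; omega
    have e2 : (k + c + 1) % ((B + 1) * (m + 1)) = (k' + c + 1) % ((B + 1) * (m + 1)) := by
      rw [Nat.mod_mul, Nat.mod_mul, e1, show (k + c + 1) / (B + 1) % (m + 1) = _ from a3.trans b3.symm]
    rw [add_assoc, add_assoc] at e2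
    have := Nat.ModEq.add_right_cancel' _ e2
    rw [mul_comm] at a1 b1
    rwa [Nat.ModEq, Nat.mod_eq_of_lt a1, Nat.mod_eq_of_lt b1] at this

theorem feas_nph : NPH Valid Feas := by
  refine pack_nph.reduce jred (by unfold jred; fun_prop) fun p hp => ⟨?_, jyes hp, jno hp⟩
  obtain ⟨o1, o2, o3, -⟩ := hp
  have e : ((jred p).map fun y => y.1.val).sum = p.2.1 * (p.2.2 + 1) := by
    simp [jred, Function.comp_def, o2, mul_add, add_comm]
  intro x hx
  rw [e]
  rcases List.mem_cons.1 hx with rfl | hx
  · simp [o3]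
  · obtain ⟨a, ha, rfl⟩ := List.mem_map.1 hx
    have h1 := o1 a ha
    have h2 : a ≤ p.2.1 * (p.2.2 + 1) := (List.le_sum_of_mem ha).trans (by rw [o2]; nlinarith)
    refine ⟨by simp only; omega, by simp; omega, by simp; omega, by simp; omega, by simp; omega⟩

def jver (p : Inst) (S : List ℕ) : Bool :=
  (S.all fun s => decide (s < p.length)) && (List.range p.length).all fun i =>
    decide (S.count i = (p.getD i (⟨0⟩, [])).2.length) &&
    (dists S i ++ (p.getD i (⟨0⟩, [])).2.map fun a => min (p.map fun y => y.2.length).sum a.val).all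
      fun z => decide ((dists S i).count z =
        ((p.getD i (⟨0⟩, [])).2.map fun a => min (p.map fun y => y.2.length).sum a.val).count z)

theorem jver_iff {p : Inst} (hp : Valid p) (S : List ℕ) : jver p S = true ↔ (∀ s ∈ S, s < p.length) ∧
    ∀ i : Fin p.length, S.count i.val = (p.get i).1.val ∧ (dists S i).Perm ((p.get i).2.map Bin.val) := by
  have e : (p.map fun y => y.2.length) = p.map fun y => y.1.val :=
    List.map_congr_left fun y hy => (hp y hy).2.1
  simp only [jver, Bool.and_eq_true, List.all_eq_true, decide_eq_true_eq, List.mem_range, e]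
  refine and_congr_right fun _ => Iff.trans ?_ Fin.forall_iff.symm
  refine forall₂_congr fun i hi => ?_
  obtain ⟨-, k1, -, -, k2⟩ := hp _ (List.getElem_mem hi)
  rw [List.getD_eq_getElem _ _ hi, List.map_congr_left (g := Bin.val) fun a ha =>
    min_eq_right (k2 ▸ List.le_sum_of_mem (List.mem_map_of_mem ha)), k1, List.perm_iff_count]
  refine and_congr_right fun _ => ⟨fun h z => ?_, fun h z _ => h z⟩
  by_cases hz : z ∈ dists S i ++ p[i].2.map Bin.val
  · exact h z hz
  · rw [List.mem_append, not_or] at hz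
    exact (List.count_eq_zero.2 hz.1).trans (List.count_eq_zero.2 hz.2).symm

attribute [local fun_prop] H36.Maj.pt_min in
theorem feas_NP : InNPOn Valid Feas := by
  refine inNPOn_of_pt jver (by unfold jver dists posns; fun_prop)
    (B := fun p => (p.map fun y => y.2.length).sum * (2 * p.length + 1)) (PT.nat_pb (by fun_prop))
    (fun p hp ⟨S, h⟩ => ⟨S, ?_, (jver_iff hp S).2 h⟩) fun p S hp h => ⟨S, (jver_iff hp S).1 h⟩
  refine (sz_le_of_forall (B := p.length) fun a ha => by simpa using (h.1 a ha).le).trans_eq ?_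
  rw [len_eq h.1, sum_range, ← List.sum_ofFn]
  congr 2
  refine List.ext_getElem (by simp) fun i h1 _ => ?_
  have hi : i < p.length := by simpa using h1
  simpa [(hp _ (List.getElem_mem hi)).2.1] using (h.2 ⟨i, hi⟩).1

end Pool.Agent.Lead.BP
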