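import Pool.Agent.Lead.BP.Pack

/-!
Laying out the items of a packing as consecutive intervals.
-/

namespace Pool.Agent.Lead.BP

open Finset

theorem cover (a g : ℕ → ℕ) (j n t : ℕ) (h : t < ∑ i ∈ range n with g i = j, a i) :
    ∃ i < n, g i = j ∧ ∑ i' ∈ range i with g i' = j, a i' ≤ t ∧
      t < ∑ i' ∈ range i with g i' = j, a i' + a i := by
  induction n with
  | zero => simp at h
  | succ n ih =>
    by_cases e : t < ∑ i ∈ range n with g i = j, a i
    · obtain ⟨i, h1, h2⟩ := ih e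
      exact ⟨i, by omega, h2⟩
    · rw [range_add_one, filter_insert] at h
      split_ifs at h with hg
      · rw [sum_insert (by simp)] at h
        exact ⟨n, by omega, hg, by omega, by omega⟩
      · exact absurd h e

theorem Pack.lay {p : List ℕ × ℕ × ℕ} (h : Pack p) : ∃ g st : ℕ → ℕ,
    (∀ i < p.1.length, g i < p.2.1 ∧ st i + p.1.getD i 0 ≤ p.2.2) ∧
    (∀ i i' t, g i = g i' → st i ≤ t → t < st i + p.1.getD i 0 → st i' ≤ t →
      t < st i' + p.1.getD i' 0 → i = i') ∧
    ∀ j < p.2.1, ∀ t < p.2.2, ∃ i < p.1.length, g i = j ∧ st i ≤ t ∧ t < st i + p.1.getD i 0 := by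
  obtain ⟨g, h1, h2⟩ := h
  have k : ∀ i n, i < n → ∑ i' ∈ range i with g i' = g i, p.1.getD i' 0 + p.1.getD i 0 ≤
      ∑ i' ∈ range n with g i' = g i, p.1.getD i' 0 := fun i n hi => by
    rw [add_comm, ← sum_insert (f := fun i' => p.1.getD i' 0) (by simp)]
    refine sum_le_sum_of_subset fun x hx => ?_
    simp only [mem_insert, mem_filter, mem_range] at hx ⊢
    rcases hx with rfl | hx
    exacts [⟨hi, rfl⟩, ⟨by omega, hx.2⟩]
  refine ⟨g, fun i => ∑ i' ∈ range i with g i' = g i, p.1.getD i' 0,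
    fun i hi => ⟨h1 i hi, (k i _ hi).trans_eq (h2 _ (h1 i hi))⟩, fun i i' t e a1 a2 a3 a4 => ?_,
    fun j hj t ht => ?_⟩
  · simp only at a1 a2 a3 a4
    rcases lt_trichotomy i i' with h | h | h
    · have := k i i' h
      rw [← e] at a3; omega
    · exact h
    · have := k i' i h
      rw [e] at a1; omega
  · obtain ⟨i, k1, rfl, k2⟩ := cover (fun i => p.1.getD i 0) g j _ t (ht.trans_eq (h2 j hj).symm)
    exact ⟨i, k1, rfl, k2⟩

end Pool.Agent.Lead.BP
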