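import Pool.Agent.Lead.Ham.One3

/-!
Exact bin packing with numbers in unary is NP-hard.
-/

namespace Pool.Agent.Lead.BP

open Pool.Agent.H38.NP Pool.Agent.Lead.Ham Finset

/-- `p = (sizes, m, B)`: the items can be put into `m` bins, each filled to exactly `B`. -/
def Pack (p : List ℕ × ℕ × ℕ) : Prop := ∃ g : ℕ → ℕ, (∀ i < p.1.length, g i < p.2.1) ∧
  ∀ j < p.2.1, ∑ i ∈ range p.1.length with g i = j, p.1.getD i 0 = p.2.2

def Ok (p : List ℕ × ℕ × ℕ) : Prop :=
  (∀ a ∈ p.1, 2 ≤ a) ∧ p.1.sum = p.2.1 * p.2.2 ∧ 0 < p.2.1 ∧ 4 * p.2.1 ≤ p.2.2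

theorem sum_getD (L : List ℕ) : ∑ i ∈ range L.length, L.getD i 0 = L.sum := by
  induction L with
  | nil => rfl
  | cons a L ih => rw [List.length_cons, sum_range_succ', List.sum_cons, add_comm, ← ih]; rfl

theorem sum_fib {L : List ℕ} {m : ℕ} {g : ℕ → ℕ} (h : ∀ i < L.length, g i < m) :
    ∑ j ∈ range m, ∑ i ∈ range L.length with g i = j, L.getD i 0 = L.sum := by
  rw [sum_fiberwise_of_maps_to (by simpa using h), sum_getD]

theorem Pack.sum {p} (h : Pack p) : p.1.sum = p.2.1 * p.2.2 := by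
  obtain ⟨g, h1, h2⟩ := h
  rw [← sum_fib h1, sum_congr rfl fun j hj => h2 j (mem_range.1 hj)]
  simp

theorem pack_of_le {p : List ℕ × ℕ × ℕ} (e : p.1.sum = p.2.1 * p.2.2) (g : ℕ → ℕ)
    (h1 : ∀ i < p.1.length, g i < p.2.1)
    (h2 : ∀ j < p.2.1, ∑ i ∈ range p.1.length with g i = j, p.1.getD i 0 ≤ p.2.2) : Pack p :=
  ⟨g, h1, fun j hj => (sum_eq_sum_iff_of_le (s := range p.2.1) (g := fun _ => p.2.2)
    fun j hj => h2 j (mem_range.1 hj)).1 (by rw [sum_fib h1, e]; simp) j (mem_range.2 hj)⟩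

variable (φ : F3)

def key (t q : ℕ) : ℕ := if t = 1 then q / 2 else if t = 2 then (if q % 2 = 1 then q / 2 else nx φ (q / 2))
  else 2 * (q / 6) + if q % 2 = sg φ (q / 2) then 1 else 0

def own (t q : ℕ) : ℕ := if t = 3 then 2 * (q / 6) + (if q % 6 < 3 then 1 else 0) else q / 2

def dg (t i : ℕ) : ℕ :=
  if i % 4 = 0 then 6 * φ.length - key φ t (i / 4) else if i % 4 = t then own t (i / 4) else 0

def st (i : ℕ) : ℕ := if i % 4 = 0 then 0 else if i % 4 = 3 then
  (if i / 4 % 6 = 0 ∨ i / 4 % 6 = 3 ∨ i / 4 % 6 = 4 then 2 else 0) else i / 4 % 2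

def ty (t i : ℕ) : ℕ := if i % 4 = t then 1 else 0

def rad : ℕ := 24 * φ.length * (6 * φ.length) + 3

def num (R a b c d e f g h : ℕ) : ℕ := a + R * (b + R * (c + R * (d + R * (e + R * (f + R * (g + R * h))))))

def size (i : ℕ) : ℕ :=
  num (rad φ) (st i) (dg φ 1 i) (dg φ 2 i) (dg φ 3 i) (ty 0 i) (ty 1 i) (ty 2 i) (ty 3 i)

def cap : ℕ := num (rad φ) 2 (6 * φ.length) (6 * φ.length) (6 * φ.length) 1 1 1 1

def items : List ℕ := (List.range (24 * φ.length)).map (size φ)

def red : List ℕ × ℕ × ℕ :=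
  if (items φ).sum = 6 * φ.length * cap φ then (items φ, 6 * φ.length, cap φ) else ([9, 7], 2, 8)

theorem pt_red : PT red := by
  have h1 : PT fun p : F3 × ℕ => size p.1 p.2 := by
    unfold size num st dg ty key own rad sg; fun_prop
  have h2 : PT items := PT.map (f := fun φ i => size φ i) h1 (by fun_prop)
  have h3 : PT cap := by unfold cap num rad; fun_prop
  unfold red; fun_prop

variable {φ}

theorem pack_iff : Pack (items φ, 6 * φ.length, cap φ) ↔ ∃ g : ℕ → ℕ,
    (∀ i < 24 * φ.length, g i < 6 * φ.length) ∧ ∀ j < 6 * φ.length,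
      ∑ i ∈ range (24 * φ.length) with g i = j, size φ i = cap φ := by
  simp only [Pack, items, List.length_map, List.length_range]
  refine exists_congr fun g => and_congr_right fun _ => forall₂_congr fun j _ => ?_
  rw [sum_congr rfl fun i hi => ?_]
  simp [List.getD_eq_getElem?_getD, mem_range.1 (mem_filter.1 hi).1]

theorem sg_le (o) : sg φ o ≤ 1 := Bool.toNat_le _

theorem key_lt {t q} (h : q < 6 * φ.length) : key φ t q < 6 * φ.length := by
  have := (nx_spec (φ := φ) (o := q / 2) (by omega)).1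
  unfold key; split_ifs <;> omega

theorem split {S : Finset ℕ} {f g : ℕ → ℕ} {R D a b : ℕ} (h : ∑ i ∈ S, (f i + R * g i) = a + R * b)
    (hf : ∀ i ∈ S, f i ≤ D) (hR : #S * D < R) (ha : a < R) : ∑ i ∈ S, f i = a ∧ ∑ i ∈ S, g i = b := by
  have h1 : ∑ i ∈ S, f i < R := (sum_le_card_nsmul _ _ _ hf).trans_lt hR
  rw [sum_add_distrib, ← mul_sum] at h
  have h2 := congrArg (· % R) h
  simp only [Nat.add_mul_mod_self_left, Nat.mod_eq_of_lt h1, Nat.mod_eq_of_lt ha] at h2
  rw [h2] at h
  exact ⟨h2, Nat.eq_of_mul_eq_mul_left (by omega) (Nat.add_left_cancel h)⟩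

theorem four {S : Finset ℕ} {a b c d : ℕ} (h : ∀ i, i ∈ S ↔ i = a ∨ i = b ∨ i = c ∨ i = d)
    (ha : a % 4 = 0) (hb : b % 4 = 1) (hc : c % 4 = 2) (hd : d % 4 = 3) (f : ℕ → ℕ) :
    ∑ i ∈ S, f i = f a + f b + f c + f d := by
  rw [show S = {a, b, c, d} by ext i; simp [h], sum_insert (by simp; omega),
    sum_insert (by simp; omega), sum_pair (by omega)]
  ring

theorem st_lo {t} (ht : t = 1 ∨ t = 2) (q) : st (4 * q + t) = q % 2 := by
  rw [st, if_neg (by omega), if_neg (by omega), show (4 * q + t) / 4 = q by omega]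

theorem st_hi (c) {s} (hs : s < 6) : st (4 * (6 * c + s) + 3) = if s = 0 ∨ s = 3 ∨ s = 4 then 2 else 0 := by
  rw [st, if_neg (by omega), if_pos (by omega), show (4 * (6 * c + s) + 3) / 4 % 6 = s by omega]

theorem own_hi (c) {s} (hs : s < 6) : own 3 (6 * c + s) = 2 * c + if s < 3 then 1 else 0 := by
  rw [own, if_pos rfl, show (6 * c + s) / 6 = c by omega, show (6 * c + s) % 6 = s by omega]

theorem key1 (q) : key φ 1 q = q / 2 := rfl
theorem key2 (q) : key φ 2 q = if q % 2 = 1 then q / 2 else nx φ (q / 2) := rfl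
theorem key3 (q) : key φ 3 q = 2 * (q / 6) + if q % 2 = sg φ (q / 2) then 1 else 0 := rfl

theorem st12 (i) (h : i % 4 = 1 ∨ i % 4 = 2) : st i ≤ 1 := by
  rw [st, if_neg (by omega), if_neg (by omega)]; omega

theorem st3 (i) (h : i % 4 = 3) : st i = 0 ∨ st i = 2 := by
  rw [st, if_neg (by omega), if_pos h]; split_ifs <;> simp

theorem no (hn : 0 < φ.length) (h : Pack (items φ, 6 * φ.length, cap φ)) : One3 φ := by
  obtain ⟨g, h1, h2⟩ := pack_iff.1 h
  have bin : ∀ j < 6 * φ.length, ∃ P : ℕ → ℕ, (∀ t < 4, P t % 4 = t ∧ P t < 24 * φ.length ∧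
      g (P t) = j) ∧ (∀ i < 24 * φ.length, g i = j → i = P (i % 4)) ∧
      st (P 1) + st (P 2) + st (P 3) = 2 ∧
      ∀ t, t = 1 ∨ t = 2 ∨ t = 3 → key φ t (P 0 / 4) = own t (P t / 4) := by
    intro j hj
    have e := h2 j hj
    set S := {i ∈ range (24 * φ.length) | g i = j} with hS
    have hR : #S * (6 * φ.length) < rad φ := by
      have : #S ≤ 24 * φ.length := (card_filter_le _ _).trans (card_range _).le
      have := Nat.mul_le_mul_right (6 * φ.length) this
      unfold rad; omega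
    have hN : 6 * φ.length < rad φ := by unfold rad; nlinarith
    have d : ∀ t, ∀ i ∈ S, dg φ t i ≤ 6 * φ.length := fun t i hi => by
      have := mem_range.1 (mem_filter.1 hi).1
      unfold dg own; split_ifs <;> omega
    have y : ∀ t, ∀ i ∈ S, ty t i ≤ 6 * φ.length := fun t i _ => by unfold ty; split_ifs <;> omega
    obtain ⟨e0, e⟩ := split e (fun i _ => by unfold st; split_ifs <;> omega) hR (by omega)
    obtain ⟨e1, e⟩ := split e (d 1) hR hN
    obtain ⟨e2, e⟩ := split e (d 2) hR hN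
    obtain ⟨e3, e⟩ := split e (d 3) hR hN
    obtain ⟨e4, e⟩ := split e (y 0) hR (by omega)
    obtain ⟨e5, e⟩ := split e (y 1) hR (by omega)
    obtain ⟨e6, e7⟩ := split e (y 2) hR (by omega)
    have u : ∀ t, ∃ a, t < 4 → ∀ i, (i ∈ S ∧ i % 4 = t) ↔ i = a := fun t => by
      by_cases ht : t < 4
      · have : ∑ i ∈ S, ty t i = 1 := by interval_cases t <;> assumption
        rw [show ∑ i ∈ S, ty t i = #{i ∈ S | i % 4 = t} from (card_filter _ _).symm,
          card_eq_one] at this
        obtain ⟨a, ha⟩ := this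
        exact ⟨a, fun _ i => by rw [← mem_singleton (a := a), ← ha]; exact (mem_filter (p := fun i => i % 4 = t)).symm⟩
      · exact ⟨0, fun h => absurd h ht⟩
    choose P hP using u
    have p : ∀ t < 4, P t % 4 = t ∧ P t < 24 * φ.length ∧ g (P t) = j := fun t ht => by
      obtain ⟨k1, k2⟩ := (hP t ht _).2 rfl
      exact ⟨k2, mem_range.1 (mem_filter.1 k1).1, (mem_filter.1 k1).2⟩
    have q := four (S := S) (fun i => ⟨fun hi => by
        have := fun t ht => (hP t ht i).1
        have h0 := this 0 (by omega); have h1 := this 1 (by omega)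
        have h2 := this 2 (by omega); have h3 := this 3 (by omega)
        simp only [hi, true_and] at h0 h1 h2 h3
        omega, by
        rintro (rfl | rfl | rfl | rfl) <;> exact ((hP _ (by omega) _).2 rfl).1⟩)
      (p 0 (by omega)).1 (p 1 (by omega)).1 (p 2 (by omega)).1 (p 3 (by omega)).1
    rw [q] at e0 e1 e2 e3
    have p0 := p 0 (by omega)
    have k := fun t => key_lt (φ := φ) (t := t) (q := P 0 / 4) (by omega)
    simp only [dg, p0.1, (p 1 (by omega)).1, (p 2 (by omega)).1, (p 3 (by omega)).1] at e1 e2 e3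
    refine ⟨P, p, fun i hi e => (hP _ (Nat.mod_lt _ (by omega)) i).1 ⟨by simp [hS, hi, e], rfl⟩,
      by simpa [st, p0.1] using e0, ?_⟩
    rintro t (rfl | rfl | rfl)
    · have := k 1; simp at e1; omega
    · have := k 2; simp at e2; omega
    · have := k 3; simp at e3; omega
  choose! P p1 p2 p3 p4 using bin
  let r : ℕ → Bool := fun q => decide (st (P (g (4 * q)) 3) = 2)
  have main : ∀ t, t = 1 ∨ t = 2 ∨ t = 3 → ∃ u : ℕ → ℕ, (∀ q < 6 * φ.length, u q < 6 * φ.length ∧
      key φ t (u q) = own t q ∧ (r (u q) = true ↔ (st (4 * q + t) = 0 ↔ t ≠ 3))) ∧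
      ∀ q < 6 * φ.length, ∀ q' < 6 * φ.length, u q = u q' → q = q' := by
    intro t ht
    have a : ∀ q < 6 * φ.length, g (4 * (P (g (4 * q + t)) 0 / 4)) = g (4 * q + t) ∧
        P (g (4 * q + t)) t = 4 * q + t := fun q hq => by
      have hj := h1 (4 * q + t) (by omega)
      obtain ⟨k1, -, k3⟩ := p1 _ hj 0 (by omega)
      have := p2 _ hj (4 * q + t) (by omega) rfl
      rw [show (4 * q + t) % 4 = t by omega] at this
      exact ⟨by rw [Nat.mul_div_cancel' (Nat.dvd_of_mod_eq_zero k1), k3], this.symm⟩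
    refine ⟨fun q => P (g (4 * q + t)) 0 / 4, fun q hq => ?_, fun q hq q' hq' e => ?_⟩
    · have hj := h1 (4 * q + t) (by omega)
      obtain ⟨a1, a2⟩ := a q hq
      have := p1 _ hj 0 (by omega)
      refine ⟨by simp only; omega, by rw [p4 _ hj t ht, a2, show (4 * q + t) / 4 = q by omega], ?_⟩
      simp only [r, a1, decide_eq_true_eq]
      have k := p3 _ hj
      have k1 := st12 _ (Or.inl (p1 _ hj 1 (by omega)).1)
      have k2 := st12 _ (Or.inr (p1 _ hj 2 (by omega)).1)
      have k3 := st3 _ (p1 _ hj 3 (by omega)).1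
      rcases ht with rfl | rfl | rfl <;> rw [a2] at k <;> (try rw [a2] at k1) <;>
        (try rw [a2] at k2) <;> (try rw [a2] at k3 ⊢) <;> omega
    · have := (a q hq).1
      simp only at e
      rw [e, (a q' hq').1] at this
      have k := (a q hq).2
      rw [← this, (a q' hq').2] at k
      omega
  have two : ∀ t, t = 1 ∨ t = 2 → ∀ o < 3 * φ.length, ∀ x y, (∀ u < 6 * φ.length,
      key φ t u = o → u = x ∨ u = y) → r x = !r y := by
    intro t ht o ho x y h
    obtain ⟨u, k1, k2⟩ := main t (by omega)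
    obtain ⟨a1, a2, a3⟩ := k1 (2 * o) (by omega)
    obtain ⟨b1, b2, b3⟩ := k1 (2 * o + 1) (by omega)
    have a4 := h _ a1 (by rw [a2, own, if_neg (by omega)]; omega)
    have b4 := h _ b1 (by rw [b2, own, if_neg (by omega)]; omega)
    have a5 : r (u (2 * o)) = true := a3.2 (by rw [st_lo ht]; omega)
    have b5 : ¬ r (u (2 * o + 1)) = true := b3.not.2 (by rw [st_lo ht]; omega)
    replace b5 := eq_false_of_ne_true b5
    rcases a4 with a4 | a4 <;> rcases b4 with b4 | b4 <;> rw [a4] at a5 <;> rw [b4] at b5 <;>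
      first | exact absurd (a5.symm.trans b5) (by simp) | (rw [a5, b5]; rfl)
  have l1 : ∀ o < 3 * φ.length, r (2 * o + 1) = !r (2 * o) := fun o ho =>
    two 1 (by omega) o ho _ _ fun u _ e => by rw [key1] at e; omega
  have hf : ∀ o < 3 * φ.length, r (2 * nx φ o + 1) = r (2 * o + 1) := fun o ho => by
    rw [l1 o ho]
    refine two 2 (by omega) _ (nx_spec ho).1 _ _ fun u hu e => ?_
    rw [key2] at e
    split_ifs at e with h
    · omega
    · have := congrArg (pv φ) e
      rw [(nx_spec ho).2.2, (nx_spec (by omega)).2.2] at this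
      omega
  classical
  let a : ℕ → Bool := fun v => decide (∃ o < 3 * φ.length, (litAt φ o).1 = v ∧ r (2 * o + 1) = true)
  have ha : ∀ o < 3 * φ.length, (a (litAt φ o).1 == (litAt φ o).2) = r (2 * o + sg φ o) := by
    intro o ho
    have e : a (litAt φ o).1 = r (2 * o + 1) := by
      rw [Bool.eq_iff_iff]
      simp only [a, decide_eq_true_eq]
      exact ⟨fun ⟨o', k1, k2, k3⟩ => (nx_const (f := fun o => r (2 * o + 1)) hf ho k1 k2).trans k3,
        fun k => ⟨o, ho, rfl, k⟩⟩
    rw [e]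
    cases hs : (litAt φ o).2 <;> simp [sg, hs, l1 o ho]
  refine (one3_iff φ).2 ⟨a, fun c hc => ?_⟩
  rw [ha _ (by omega), ha _ (by omega), ha _ (by omega)]
  obtain ⟨u, k1, k2⟩ := main 3 (by omega)
  have m : ∀ s < 3, (u (6 * c + s) = 2 * (3 * c) + sg φ (3 * c) ∨
      u (6 * c + s) = 2 * (3 * c + 1) + sg φ (3 * c + 1) ∨
      u (6 * c + s) = 2 * (3 * c + 2) + sg φ (3 * c + 2)) ∧ (r (u (6 * c + s)) = true ↔ s = 0) := by
    intro s hs
    obtain ⟨a1, a2, a3⟩ := k1 (6 * c + s) (by omega)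
    refine ⟨?_, a3.trans (by rw [st_hi c (by omega)]; split_ifs <;> simp <;> omega)⟩
    rw [key3, own_hi c (by omega), if_pos hs] at a2
    have a4 : u (6 * c + s) / 6 = c ∧ u (6 * c + s) % 2 = sg φ (u (6 * c + s) / 2) := by
      split_ifs at a2 <;> omega
    have : u (6 * c + s) / 2 = 3 * c ∨ u (6 * c + s) / 2 = 3 * c + 1 ∨
        u (6 * c + s) / 2 = 3 * c + 2 := by omega
    rcases this with e | e | e <;> rw [e] at a4 <;> omega
  obtain ⟨m0, n0⟩ := m 0 (by omega)
  obtain ⟨m1, n1⟩ := m 1 (by omega)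
  obtain ⟨m2, n2⟩ := m 2 (by omega)
  have n3 : u (6 * c + 1) ≠ u (6 * c + 2) := fun e => by
    have := k2 _ (by omega) _ (by omega) e; omega
  replace n0 := n0.2 rfl
  replace n1 := eq_false_of_ne_true (n1.not.2 (by omega))
  replace n2 := eq_false_of_ne_true (n2.not.2 (by omega))
  clear m k1 k2 ha
  rcases m0 with m0 | m0 | m0 <;> rcases m1 with m1 | m1 | m1 <;> rcases m2 with m2 | m2 | m2 <;>
    rw [m0] at n0 <;> rw [m1] at n1 n3 <;> rw [m2] at n2 n3 <;>
    first | exact absurd rfl n3 | exact absurd (n0.symm.trans n1) (by simp) |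
      exact absurd (n0.symm.trans n2) (by simp) | (rw [n0, n1, n2]; decide)

theorem yes (h : One3 φ) : Pack (items φ, 6 * φ.length, cap φ) := by
  obtain ⟨a, ha⟩ := (one3_iff φ).1 h
  let f : ℕ → ℕ := fun o => (a (litAt φ o).1).toNat
  have f1 : ∀ o, f o ≤ 1 := fun o => Bool.toNat_le _
  have fn : ∀ o < 3 * φ.length, f (nx φ o) = f o := fun o ho => by simp only [f, (nx_spec ho).2.1]
  have hk : ∀ c, ∃ k < 3, c < φ.length → ∀ s < 3, (f (3 * c + s) = sg φ (3 * c + s) ↔ s = k) := by
    intro c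
    by_cases hc : c < φ.length
    · have e : ∀ o, f o = sg φ o ↔ (a (litAt φ o).1 == (litAt φ o).2) = true := fun o => by
        simp only [f, sg]
        cases a (litAt φ o).1 <;> cases (litAt φ o).2 <;> simp
      have := ha c hc
      simp only [e, hc, true_imp_iff, Nat.forall_lt_succ_right, Nat.not_lt_zero, false_imp_iff,
        implies_true, true_and, add_zero]
      revert this
      generalize (a (litAt φ (3 * c)).1 == (litAt φ (3 * c)).2) = x,
        (a (litAt φ (3 * c + 1)).1 == (litAt φ (3 * c + 1)).2) = y,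
        (a (litAt φ (3 * c + 2)).1 == (litAt φ (3 * c + 2)).2) = z
      revert x y z
      decide
    · exact ⟨0, by omega, fun h => absurd h hc⟩
  choose k k1 k2 using hk
  have k3 : ∀ j < 6 * φ.length, f (j / 2) = sg φ (j / 2) ↔ j / 2 % 3 = k (j / 6) := fun j hj => by
    rw [← k2 (j / 6) (by omega) _ (Nat.mod_lt _ (by omega)), show 3 * (j / 6) + j / 2 % 3 = j / 2 by omega]
  let w : ℕ → ℕ := fun j => if j % 2 = sg φ (j / 2) then (j / 2 % 3 + 3 - k (j / 6)) % 3
    else 3 + (j / 2 % 3 + 5 - k (j / 6)) % 3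
  let x : ℕ → ℕ := fun j => if j % 2 = f (j / 2) then 0 else 1
  have w6 : ∀ j, w j < 6 := fun j => by simp only [w]; split_ifs <;> omega
  have x2 : ∀ j, x j < 2 := fun j => by simp only [x]; split_ifs <;> omega
  let P : ℕ → ℕ → ℕ := fun t j => if t = 0 then j else if t = 3 then 6 * (j / 6) + w j
    else 2 * key φ t j + x j
  have P1 : ∀ j, P 1 j = 2 * (j / 2) + x j := fun _ => rfl
  have P2 : ∀ j, P 2 j = 2 * key φ 2 j + x j := fun _ => rfl
  have P3 : ∀ j, P 3 j = 6 * (j / 6) + w j := fun _ => rfl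
  have lt : ∀ t < 4, ∀ j < 6 * φ.length, P t j < 6 * φ.length := fun t ht j hj => by
    have := (nx_spec (φ := φ) (o := j / 2) (by omega)).1
    have := w6 j
    have := x2 j
    interval_cases t
    · exact hj
    · rw [P1]; omega
    · rw [P2, key2]; split_ifs <;> omega
    · rw [P3]; omega
  have inj : ∀ t < 4, ∀ j < 6 * φ.length, ∀ j' < 6 * φ.length, P t j = P t j' → j = j' := by
    intro t ht j hj j' hj' e
    have a1 := f1 (j / 2)
    have a2 := f1 (j' / 2)
    have a3 := x2 j
    have a4 := x2 j'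
    have a5 : x j = x j' → (j % 2 = f (j / 2) ↔ j' % 2 = f (j' / 2)) := by
      simp only [x]; split_ifs <;> simp [*]
    interval_cases t
    · exact e
    · rw [P1, P1] at e
      have e1 : j / 2 = j' / 2 := by omega
      have := a5 (by omega)
      rw [e1] at this; omega
    · have b1 := fn (j / 2) (by omega)
      have b2 := fn (j' / 2) (by omega)
      have b3 := (nx_spec (φ := φ) (o := j / 2) (by omega)).2.2
      have b4 := (nx_spec (φ := φ) (o := j' / 2) (by omega)).2.2
      rw [P2, P2] at e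
      have e1 : key φ 2 j = key φ 2 j' := by omega
      have e2 := a5 (by omega)
      rw [key2, key2] at e1
      split_ifs at e1
      · omega
      · rw [← e1] at b2; omega
      · rw [e1] at b1; omega
      · rw [e1, b4] at b3; omega
    · have c1 := k1 (j' / 6)
      have c2 := w6 j
      have c3 := w6 j'
      rw [P3, P3] at e
      have e1 : j / 6 = j' / 6 := by omega
      have e2 : w j = w j' := by omega
      have e3 : j / 2 % 3 = j' / 2 % 3 := by
        simp only [w, e1] at e2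
        have h1 := Nat.mod_lt (j / 2) (show 0 < 3 by omega)
        have h2 := Nat.mod_lt (j' / 2) (show 0 < 3 by omega)
        generalize j / 2 % 3 = y at e2 h1 ⊢
        generalize j' / 2 % 3 = z at e2 h2 ⊢
        split_ifs at e2 <;> omega
      have e4 : j / 2 = j' / 2 := by omega
      have := sg_le (φ := φ) (j' / 2)
      simp only [w, e1, e4] at e2; split_ifs at e2 <;> omega
  have sur : ∀ i, ∃ j, i < 24 * φ.length → j < 6 * φ.length ∧ P (i % 4) j = i / 4 := fun i => by
    by_cases hi : i < 24 * φ.length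
    · obtain ⟨j, h1, h2⟩ := surj_on_of_inj_on_of_card_le (s := range (6 * φ.length))
        (t := range (6 * φ.length)) (fun j _ => P (i % 4) j)
        (fun j hj => mem_range.2 (lt _ (by omega) j (mem_range.1 hj)))
        (fun j j' hj hj' => inj _ (by omega) j (mem_range.1 hj) j' (mem_range.1 hj')) le_rfl (i / 4)
        (mem_range.2 (by omega))
      exact ⟨j, fun _ => ⟨mem_range.1 h1, h2.symm⟩⟩
    · exact ⟨0, fun h => absurd h hi⟩
  choose g hg using sur
  refine pack_iff.2 ⟨g, fun i hi => (hg i hi).1, fun j hj => ?_⟩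
  rw [four (a := 4 * P 0 j) (b := 4 * P 1 j + 1) (c := 4 * P 2 j + 2) (d := 4 * P 3 j + 3) ?_
    (by omega) (by omega) (by omega) (by omega)]
  · have o : ∀ t, t = 1 ∨ t = 2 ∨ t = 3 → own t (P t j) = key φ t j := by
      have := x2 j
      rintro t (rfl | rfl | rfl)
      · rw [own, if_neg (by omega), P1, key1]; omega
      · rw [own, if_neg (by omega), P2]; omega
      · rw [P3, own_hi _ (w6 j), key3]; simp only [w]; split_ifs <;> omega
    have s : st (4 * P 1 j + 1) + st (4 * P 2 j + 2) + st (4 * P 3 j + 3) = 2 := by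
      have h1 := k1 (j / 6)
      have h2 := k3 j hj
      have h3 := f1 (j / 2)
      have h4 := sg_le (φ := φ) (j / 2)
      have h5 := Nat.mod_lt (j / 2) (show 0 < 3 by omega)
      have h6 := Nat.mod_lt j (show 0 < 2 by omega)
      rw [st_lo (by omega), st_lo (by omega), P3, st_hi _ (w6 j), P1, P2, Nat.mul_add_mod,
        Nat.mul_add_mod, Nat.mod_eq_of_lt (x2 j)]
      have h7 : (w j = 0 ∨ w j = 3 ∨ w j = 4) ↔ j % 2 = f (j / 2) := by
        simp only [w]; split_ifs <;> omega
      simp only [h7, x]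
      split_ifs <;> rfl
    have b1 := key_lt (φ := φ) (t := 1) hj
    have b2 := key_lt (φ := φ) (t := 2) hj
    have b3 := key_lt (φ := φ) (t := 3) hj
    have q : ∀ x t, t < 4 → (4 * x + t) % 4 = t ∧ (4 * x + t) / 4 = x := fun x t h => by omega
    have s0 : st (4 * j) = 0 := by simp [st]
    simp only [size, cap, num, dg, ty, q _ 1 (by omega), q _ 2 (by omega), q _ 3 (by omega), s0,
      Nat.mul_mod_right, Nat.mul_div_cancel_left _ (show 0 < 4 by omega), o 1 (by omega),
      o 2 (by omega), o 3 (by omega), show P 0 j = j from rfl]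
    simp only [if_true, Nat.reduceEqDiff, if_false, OfNat.ofNat_ne_zero, OfNat.zero_ne_ofNat,
      zero_ne_one, one_ne_zero, OfNat.ofNat_ne_one, OfNat.one_ne_ofNat]
    zify [b1.le, b2.le, b3.le] at s ⊢
    linear_combination s
  · intro i
    rw [mem_filter, mem_range]
    constructor
    · rintro ⟨h1, rfl⟩
      have := (hg i h1).2
      have h4 : i % 4 = 0 ∨ i % 4 = 1 ∨ i % 4 = 2 ∨ i % 4 = 3 := by omega
      rcases h4 with e | e | e | e <;> rw [e] at this <;> omega
    · have w : ∀ t < 4, 4 * P t j + t < 24 * φ.length ∧ g (4 * P t j + t) = j := fun t ht => by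
        have h1 : 4 * P t j + t < 24 * φ.length := by have := lt t ht j hj; omega
        obtain ⟨h2, h3⟩ := hg _ h1
        rw [show (4 * P t j + t) % 4 = t by omega, show (4 * P t j + t) / 4 = P t j by omega] at h3
        exact ⟨h1, inj t ht _ h2 _ hj h3⟩
      rintro (rfl | rfl | rfl | rfl)
      exacts [w 0 (by omega), w 1 (by omega), w 2 (by omega), w 3 (by omega)]

theorem pack_nph : NPH Ok Pack := by
  refine one3_nph.reduce red pt_red fun φ hφ => ?_
  unfold red
  split_ifs with h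
  · refine ⟨⟨fun a ha => ?_, h, by simp only; omega, ?_⟩, yes, no hφ⟩
    · obtain ⟨i, -, rfl⟩ := List.mem_map.1 ha
      have : 1 ≤ ty 0 i + rad φ * (ty 1 i + rad φ * (ty 2 i + rad φ * ty 3 i)) := by
        have h4 : i % 4 = 0 ∨ i % 4 = 1 ∨ i % 4 = 2 ∨ i % 4 = 3 := by omega
        rw [Nat.one_le_iff_ne_zero]
        rcases h4 with e | e | e | e <;> simp [ty, e, rad]
      have h3 : 3 ≤ rad φ := by unfold rad; omega
      unfold size num
      generalize ty 0 i + rad φ * (ty 1 i + rad φ * (ty 2 i + rad φ * ty 3 i)) = x at this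
      have s : ∀ a y, 1 ≤ y → 2 ≤ a + rad φ * y := fun a y hy => by nlinarith
      exact s _ _ ((s _ _ ((s _ _ ((s _ _ this).trans' one_le_two)).trans' one_le_two)).trans' one_le_two)
    · have h3 : 24 * φ.length ≤ rad φ := by unfold rad; nlinarith
      simp only [cap, num]
      nlinarith [Nat.zero_le (rad φ * (6 * φ.length + rad φ * (6 * φ.length + rad φ *
        (1 + rad φ * (1 + rad φ * (1 + rad φ * 1))))))]
  · refine ⟨⟨by simp, rfl, by simp, by simp⟩, fun k => absurd (yes k).sum h, ?_⟩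
    rintro ⟨g, h1, h2⟩
    have := h2 (g 0) (h1 0 (by simp))
    have k := single_le_sum (s := {i ∈ range 2 | g i = g 0}) (f := fun i => [9, 7].getD i 0)
      (fun _ _ => Nat.zero_le _) (a := 0) (by simp)
    exact absurd (k.trans_eq this) (by simp)

end Pool.Agent.Lead.BP
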